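import Pool.Agent.N103.MU.Lin

/-!
# Vanishing conditions for all decompositions
-/

set_option autoImplicit false
set_option linter.unusedSectionVars false

namespace Pool.Agent.N103.MU

variable {A : Type*} [Ring A] [Algebra ℚ A] {K V : Type*} [Field K] [AddCommGroup V] [Module K V]
  {W : Type*} [AddCommGroup W] [Module ℚ W]
  {ρ : A →+* Module.End K V} {G : ℤ → Submodule K V} {d : ℕ} {q : A}

/-- The members of the family act as zero on the given subspaces: `p j` acts as zero on `T i` for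
`(j, i) ∈ S`. -/
def Kill (χ : A →+* Module.End ℚ W) (S : ℕ → ℕ → Prop) (T : ℕ → Submodule ℚ W) (p : ℕ → A) :
    Prop :=
  ∀ j i, S j i → ∀ x ∈ T i, χ (p j) x = 0

lemma Kill.conj {χ : A →+* Module.End ℚ W} {S : ℕ → ℕ → Prop} {T : ℕ → Submodule ℚ W}
    (hT : ∀ a i x, x ∈ T i → χ a x ∈ T i) {p : ℕ → A} (h : Kill χ S T p) (u v : A) :
    Kill χ S T (fun n => v * p n * u) := by
  intro j i hji x hx
  rw [map_mul, map_mul, Module.End.mul_apply, Module.End.mul_apply, h j i hji _ (hT u i x hx),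
    map_zero]

/-- **Vanishing conditions and cancellation.** -/
theorem LSit.kill_iff (h : LSit ρ G d q) (χ : A →+* Module.End ℚ W) (S : ℕ → ℕ → Prop)
    (T : ℕ → Submodule ℚ W) (hT : ∀ a i x, x ∈ T i → χ a x ∈ T i) :
    ((∃ p, LDec ρ G d 1 p) ∧ ∀ p, LDec ρ G d 1 p → Kill χ S T p) ↔
      ((∃ r, LDec ρ G d (1 - q) r) ∧ ∀ r, LDec ρ G d (1 - q) r → Kill χ S T r) ∧
      (∃ e, LDec ρ G d q e) ∧ ∀ e, LDec ρ G d q e → Kill χ S T e := by
  have hq1 : q * (1 - q) = 0 := by rw [mul_sub, mul_one, h.qq, sub_self]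
  have hq2 : (1 - q) * q = 0 := by rw [sub_mul, one_mul, h.qq, sub_self]
  have hglue : ∀ {r e : ℕ → A}, LDec ρ G d (1 - q) r → LDec ρ G d q e →
      LDec ρ G d 1 (fun n => r n + e n) := by
    intro r e hr he
    have h5 := hr.glue he hq2 hq1
    rwa [sub_add_cancel] at h5
  constructor
  · rintro ⟨hex, hall⟩
    obtain ⟨⟨r0, hr0⟩, ⟨e0, he0⟩⟩ := h.iff.1 hex
    refine ⟨⟨⟨r0, hr0⟩, fun r hr => ?_⟩, ⟨e0, he0⟩, fun e he => ?_⟩
    · have h1 := hall _ (hglue hr he0)
      intro j i hji x hx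
      have h2 := h1 j i hji _ (hT (1 - q) i x hx)
      rw [← Module.End.mul_apply, ← map_mul, add_mul, hr.right,
        ← he0.right j, mul_assoc, hq1, mul_zero, add_zero] at h2
      exact h2
    · have h1 := hall _ (hglue hr0 he)
      intro j i hji x hx
      have h2 := h1 j i hji _ (hT q i x hx)
      rw [← Module.End.mul_apply, ← map_mul, add_mul, he.right,
        ← hr0.right j, mul_assoc, hq2, mul_zero, zero_add] at h2
      exact h2
  · rintro ⟨⟨⟨r0, hr0⟩, hr⟩, ⟨e0, he0⟩, he⟩
    refine ⟨⟨_, hglue hr0 he0⟩, fun p hp => ?_⟩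
    obtain ⟨u, v, h1, h2, h3, h4, _, _⟩ := h.exists_move hp
    have hm := hp.conj h1 h2 h3
    have k1 := hr _ (hm.split (q := 1 - q) (by
      rw [sub_mul, one_mul, mul_sub, mul_one, h.qq, sub_self, sub_zero]) fun n =>
      (Commute.one_right _).sub_right (h4 n))
    have k2 := he _ (hm.split h.qq h4)
    have k3 : Kill χ S T (fun n => v * p n * u) := by
      intro j i hji x hx
      have e1 : v * p j * u = (1 - q) * (v * p j * u) + q * (v * p j * u) := by
        rw [← add_mul, sub_add_cancel, one_mul]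
      dsimp only
      rw [e1, map_add, LinearMap.add_apply, k1 j i hji x hx, k2 j i hji x hx, add_zero]
    have k4 := k3.conj hT v u
    have e2 : (fun n => u * (v * p n * u) * v) = p := by
      funext n
      calc u * (v * p n * u) * v = (u * v) * p n * (u * v) := by simp only [mul_assoc]
        _ = p n := by rw [h2, one_mul, mul_one]
    rwa [e2] at k4

end Pool.Agent.N103.MU
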