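import Pool.Agent.N103.MU.Defs
import Pool.Agent.N103.MU.Kill
import Pool.Agent.N103.SD.Tate

/-!
# Vanishing conditions for all Chow-Kunneth decompositions
-/

open CategoryTheory AlgebraicGeometry

set_option autoImplicit false
set_option linter.unusedSectionVars false

universe u v w

namespace Pool.Agent.N103.MU

open Pool.Agent.H914 Pool.Agent.H914.VarClass Pool.Agent.H914.VarClass.Obj Pool.Agent.W492.BB
  Pool.Agent.W550.Corr Pool.Agent.TH133 Pool.Agent.Y107 Pool.Agent.N103.SD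

variable {k : Type u} [Field k] {𝒱 : VarClass k}

variable {C : TheoryData.{u, v, 0} 𝒱 ℚ} [hC : IsChowProj C] {K : Type w} [Field K]
  {H : WeilTheoryData.{u, v, w} C K} [hH : IsWeilProj H] {X Y : 𝒱.Obj}

section ring

include hC

/-- The action on the Chow groups. -/
noncomputable def chow0 (C : TheoryData.{u, v, 0} 𝒱 ℚ) [hC : IsChowProj C] (Y : 𝒱.Obj) :
    ↥(cor0 C Y) →+* Module.End ℚ (C.A Y) :=
  (actC C Y).comp (cor0 C Y).toSubring.subtype

lemma chow0_apply (a : ↥(cor0 C Y)) (x : C.A Y) :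
    chow0 C Y a x = C.act (X := Y) (Y := Y) a.1 x := rfl

end ring

include hC hH

/-- The situation of the ring theoretic results. -/
lemma lsit {q : ↥(cor0 C Y)} (hqq : q * q = q)
    (hnil : ∀ c : ↥(cor0 C Y), q * c = c → c * q = c → act0 C Y H c = 0 → IsNilpotent c) :
    LSit (act0 C Y H) (fun m => H.gr Y m) Y.dim q where
  ext f hf := ext_gr H f 0 fun i a ha => hf i a ha
  low _ hm := H.gr_neg Y _ hm
  top _ hm := gr_top H hm
  pres a _ _ hx := actH_mem0 a.2 hx
  qq := hqq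
  nil := hnil

/-- Translation between the two notions of decomposition. -/
lemma ldec_iff {e : C.A (Y.prod Y)} (he : C.Deg Y.dim e) (r : ℕ → C.A (Y.prod Y))
    (hr : ∀ n, C.Deg Y.dim (r n)) :
    LDec (act0 C Y H) (fun m => H.gr Y m) Y.dim (⟨e, he⟩ : ↥(cor0 C Y))
      (fun n => ⟨r n, hr n⟩) ↔ CKOf H e r := by
  constructor
  · intro h
    refine ⟨hr, ?_, ?_, ?_, ?_, ?_, ?_⟩
    · intro n hn
      exact congrArg Subtype.val (h.out n hn)
    · intro n
      have h1 := h.mul n n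
      rw [if_pos rfl] at h1
      exact congrArg Subtype.val h1
    · intro m n hmn
      have h1 := h.mul n m
      rw [if_neg hmn.symm] at h1
      exact congrArg Subtype.val h1
    · have h1 := congrArg Subtype.val h.sum
      rw [AddSubmonoidClass.coe_finsetSum] at h1
      exact h1
    · intro n x hx
      have h1 := h.act n n x hx
      rw [if_pos rfl] at h1
      exact h1
    · intro n m x hm hx
      have h1 := h.act n m x hx
      rw [if_neg hm] at h1
      exact h1
  · intro h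
    refine ⟨?_, ?_, ?_, ?_⟩
    · intro n hn
      exact Subtype.ext (h.out n hn)
    · intro m n
      split_ifs with hmn
      · subst hmn
        exact Subtype.ext (h.idem m)
      · exact Subtype.ext (h.orth n m (Ne.symm hmn))
    · apply Subtype.ext
      rw [AddSubmonoidClass.coe_finsetSum]
      exact h.sum
    · intro n m x hx
      split_ifs with hmn
      · subst hmn
        exact h.act_self n x hx
      · exact h.act_ne n m x hmn hx

/-- The vanishing condition on the level of correspondences. -/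
def KillC (C : TheoryData.{u, v, 0} 𝒱 ℚ) {Y : 𝒱.Obj} (S : ℕ → ℕ → Prop)
    (T : ℕ → Submodule ℚ (C.A Y)) (r : ℕ → C.A (Y.prod Y)) : Prop :=
  ∀ j i, S j i → ∀ x ∈ T i, C.act (r j) x = 0

lemma all_ldec_iff {e : C.A (Y.prod Y)} (he : C.Deg Y.dim e) (S : ℕ → ℕ → Prop)
    (T : ℕ → Submodule ℚ (C.A Y)) :
    ((∃ r, LDec (act0 C Y H) (fun m => H.gr Y m) Y.dim (⟨e, he⟩ : ↥(cor0 C Y)) r) ∧
      ∀ r, LDec (act0 C Y H) (fun m => H.gr Y m) Y.dim (⟨e, he⟩ : ↥(cor0 C Y)) r →
        Kill (chow0 C Y) S T r) ↔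
    ((∃ r, CKOf H e r) ∧ ∀ r, CKOf H e r → KillC C S T r) := by
  constructor
  · rintro ⟨⟨r, hr⟩, hall⟩
    refine ⟨⟨fun n => (r n).1, (ldec_iff he _ fun n => (r n).2).1 hr⟩, fun r hr => ?_⟩
    exact hall _ ((ldec_iff he r hr.deg).2 hr)
  · rintro ⟨⟨r, hr⟩, hall⟩
    refine ⟨⟨_, (ldec_iff he r hr.deg).2 hr⟩, fun r hr => ?_⟩
    exact hall _ ((ldec_iff he (fun n => (r n).1) fun n => (r n).2).1 hr)

lemma ckOf_dg (π : ℕ → C.A (Y.prod Y)) : CKOf H (dg C Y) π ↔ IsCK H Y π := by
  constructor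
  · intro h
    exact ⟨h.deg, h.out, h.idem, h.orth, h.sum, fun n x hx => by
      rw [h.act_self n x hx, actH_dg], fun n m x hm hx => h.act_ne n m x hm hx⟩
  · intro h
    exact ⟨h.deg, h.out, h.idem, h.orth, h.sum, fun n x hx => by
      rw [h.act_self n x hx, actH_dg], h.act_ne⟩

omit hH in
lemma factor_comp {a : C.A (X.prod Y)} {b : C.A (Y.prod X)} (h : Factor C a b) :
    C.comp (C.comp b a) (C.comp b a) = C.comp b a := by
  rw [comp_assoc C b a, ← comp_assoc C a b a, h.comp, dg_comp]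

omit hH in
lemma factor_mem {a : C.A (X.prod Y)} {b : C.A (Y.prod X)} (h : Factor C a b) :
    C.Deg Y.dim (C.comp b a) := by
  have h1 : b ∈ C.gr (Y.prod X) ((Y.dim : ℤ) + 0) := by rw [add_zero]; exact h.right
  have h2 : a ∈ C.gr (X.prod Y) ((X.dim : ℤ) + 0) := by rw [add_zero]; exact h.left
  have h3 := comp_mem C h1 h2
  rwa [add_zero, add_zero] at h3

lemma nilComplement_of {a : C.A (X.prod Y)} {b : C.A (Y.prod X)} (h : Factor C a b)
    (hnil : NilOff H a b) : NilComplement H (C.comp b a) := by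
  intro x hx h0 h1 h2
  apply hnil x hx h0
  · have h3 : C.comp a (C.comp (C.comp b a) x) = C.comp a x := by
      rw [← comp_assoc C a (C.comp b a) x, ← comp_assoc C a b a, h.comp, dg_comp]
    rw [← h3, h2, comp_zero]
  · have h3 : C.comp (C.comp x (C.comp b a)) b = C.comp x b := by
      rw [comp_assoc C x (C.comp b a) b, comp_assoc C b a b, h.comp, comp_dg]
    rw [← h3, h1, zero_comp]

/-- The situation for the complement of a factor. -/
lemma lsit_factor {a : C.A (X.prod Y)} {b : C.A (Y.prod X)} (h : Factor C a b)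
    (hnil : NilOff H a b) :
    LSit (act0 C Y H) (fun m => H.gr Y m) Y.dim
      (1 - ⟨C.comp b a, factor_mem h⟩ : ↥(cor0 C Y)) := by
  have hee : (⟨C.comp b a, factor_mem h⟩ : ↥(cor0 C Y)) * ⟨C.comp b a, factor_mem h⟩ =
      ⟨C.comp b a, factor_mem h⟩ := Subtype.ext (factor_comp h)
  apply lsit
  · exact compl_idem hee
  · intro c h1 h2 h3
    rw [sub_mul, one_mul, sub_eq_self] at h1
    rw [mul_sub, mul_one, sub_eq_self] at h2
    obtain ⟨n, hn⟩ := nilComplement_of h hnil c.1 c.2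
      (hom_zero_of_act H fun x => LinearMap.congr_fun h3 x)
      (congrArg Subtype.val h1) (congrArg Subtype.val h2)
    exact nil_of_corPow (H := H) hn

/-- From the motive `(Y, b ∘ a)` to `X`. -/
lemma isCK_of_ckOf {a : C.A (X.prod Y)} {b : C.A (Y.prod X)} (h : Factor C a b)
    {r : ℕ → C.A (Y.prod Y)} (hr : CKOf H (C.comp b a) r) :
    IsCK H X (fun n => C.comp (C.comp a (r n)) b) := by
  have hrr : ∀ i j, C.comp (r i) (r j) = if i = j then r i else 0 := by
    intro i j
    split_ifs with h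
    · subst h
      exact hr.idem i
    · exact hr.orth i j h
  have hRe : ∀ n, C.comp (r n) (C.comp b a) = r n := by
    intro n
    rw [← hr.sum, comp_sum]
    by_cases hn : n ≤ 2 * Y.dim
    · rw [Finset.sum_eq_single n]
      · rw [hrr, if_pos rfl]
      · intro m _ hm
        rw [hrr, if_neg (Ne.symm hm)]
      · intro h
        exact absurd (Finset.mem_range.2 (by omega)) h
    · rw [hr.out n (by omega)]
      apply Finset.sum_eq_zero
      intro m _
      exact zero_comp C _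
  have ha' : a ∈ C.gr (X.prod Y) ((X.dim : ℤ) + 0) := by rw [add_zero]; exact h.left
  have hb' : b ∈ C.gr (Y.prod X) ((Y.dim : ℤ) + 0) := by rw [add_zero]; exact h.right
  have haH : ∀ {m : ℤ} {x : H.A X}, x ∈ H.gr X m → H.act (H.cl a) x ∈ H.gr Y m := by
    intro m x hx
    have := actH_mem H ha' hx
    rwa [mul_zero, add_zero] at this
  refine ⟨?_, ?_, ?_, ?_, ?_, ?_, ?_⟩
  · intro n
    have h1 : r n ∈ C.gr (Y.prod Y) ((Y.dim : ℤ) + 0) := by rw [add_zero]; exact hr.deg n
    have h2 := comp_mem C (comp_mem C ha' h1) hb'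
    rwa [show (X.dim : ℤ) + (0 + 0 + 0) = X.dim by ring] at h2
  · intro n hn
    rw [hr.out n (by rw [h.dim]; exact hn), comp_zero, zero_comp]
  · intro n
    rw [comp_factor (hRe n), hrr, if_pos rfl]
  · intro m n hmn
    rw [comp_factor (hRe m), hrr, if_neg hmn, comp_zero, zero_comp]
  · rw [← sum_comp, ← comp_sum, ← h.dim, hr.sum, comp_assoc C a, comp_assoc C b, h.comp,
      comp_dg, h.comp]
  · intro n x hx
    rw [actH_comp, actH_comp, hr.act_self n _ (haH hx), ← actH_comp, ← actH_comp,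
      comp_assoc C b, h.comp, comp_dg, h.comp, actH_dg]
  · intro n m x hm hx
    rw [actH_comp, actH_comp, hr.act_ne n m _ hm (haH hx), TheoryData.act_map_zero]

/-- From `X` to the motive `(Y, b ∘ a)`. -/
lemma ckOf_of_isCK {a : C.A (X.prod Y)} {b : C.A (Y.prod X)} (h : Factor C a b)
    {π : ℕ → C.A (X.prod X)} (hπ : IsCK H X π) :
    CKOf H (C.comp b a) (fun n => C.comp (C.comp b (π n)) a) := by
  have ha' : a ∈ C.gr (X.prod Y) ((X.dim : ℤ) + 0) := by rw [add_zero]; exact h.left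
  have hb' : b ∈ C.gr (Y.prod X) ((Y.dim : ℤ) + 0) := by rw [add_zero]; exact h.right
  have hbH : ∀ {m : ℤ} {x : H.A Y}, x ∈ H.gr Y m → H.act (H.cl b) x ∈ H.gr X m := by
    intro m x hx
    have := actH_mem H hb' hx
    rwa [mul_zero, add_zero] at this
  refine ⟨?_, ?_, ?_, ?_, ?_, ?_, ?_⟩
  · intro n
    have h1 : π n ∈ C.gr (X.prod X) ((X.dim : ℤ) + 0) := by rw [add_zero]; exact hπ.deg n
    have h2 := comp_mem C (comp_mem C hb' h1) ha'
    rwa [show (Y.dim : ℤ) + (0 + 0 + 0) = Y.dim by ring] at h2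
  · intro n hn
    rw [hπ.out n (by rw [← h.dim]; exact hn), comp_zero, zero_comp]
  · intro n
    rw [comp_factor' h.comp, hπ.idem]
  · intro m n hmn
    rw [comp_factor' h.comp, hπ.orth m n hmn, comp_zero, zero_comp]
  · rw [← sum_comp, ← comp_sum, h.dim, hπ.sum, comp_dg]
  · intro n x hx
    rw [actH_comp, actH_comp, hπ.act_self n _ (hbH hx), actH_comp]
  · intro n m x hm hx
    rw [actH_comp, actH_comp, hπ.act_ne n m _ hm (hbH hx), TheoryData.act_map_zero]

omit hH in
lemma ckOf_sandwich {a : C.A (X.prod Y)} {b : C.A (Y.prod X)}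
    {r : C.A (Y.prod Y)} (h1 : C.comp r (C.comp b a) = r) (h2 : C.comp (C.comp b a) r = r)
    (x : C.A Y) : C.act r x = C.act a (C.act (C.comp (C.comp a r) b) (C.act b x)) := by
  have e1 : C.comp b (C.comp (C.comp (C.comp a r) b) a) = r := by
    calc C.comp b (C.comp (C.comp (C.comp a r) b) a)
        = C.comp (C.comp (C.comp b a) r) (C.comp b a) := by
          simp only [comp_assoc]
      _ = r := by rw [h2, h1]
  rw [← C.act_comp, ← C.act_comp, e1]

/-- Vanishing conditions for `X` and for the motive `(Y, b ∘ a)`. -/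
theorem all_ckOf_iff {a : C.A (X.prod Y)} {b : C.A (Y.prod X)} (h : Factor C a b)
    (S : ℕ → ℕ → Prop) (T : ℕ → Submodule ℚ (C.A Y)) (T' : ℕ → Submodule ℚ (C.A X))
    (hT : ∀ i, ∀ x ∈ T i, C.act b x ∈ T' i) (hT' : ∀ i, ∀ x ∈ T' i, C.act a x ∈ T i) :
    ((∃ r, CKOf H (C.comp b a) r) ∧ ∀ r, CKOf H (C.comp b a) r → KillC C S T r) ↔
    (HasCK H X ∧ ∀ π, IsCK H X π → KillC C S T' π) := by
  constructor
  · rintro ⟨⟨r, hr⟩, hall⟩
    refine ⟨⟨_, isCK_of_ckOf h hr⟩, fun π hπ j i hji y hy => ?_⟩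
    have h1 := hall _ (ckOf_of_isCK h hπ) j i hji _ (hT' i y hy)
    have h2 := congrArg (C.act b) h1
    have e1 : C.comp (C.comp a (C.comp (C.comp b (π j)) a)) b = π j := by
      calc C.comp (C.comp a (C.comp (C.comp b (π j)) a)) b
          = C.comp (C.comp (C.comp a b) (π j)) (C.comp a b) := by simp only [comp_assoc]
        _ = π j := by rw [h.comp, dg_comp, comp_dg]
    have e2 : C.act b (C.act (C.comp (C.comp b (π j)) a) (C.act a y)) = C.act (π j) y := by
      rw [← C.act_comp, ← C.act_comp, ← comp_assoc, e1]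
    rw [e2] at h2
    rw [h2]
    exact map_zero (C.actL b)
  · rintro ⟨⟨π, hπ⟩, hall⟩
    refine ⟨⟨_, ckOf_of_isCK h hπ⟩, fun r hr j i hji x hx => ?_⟩
    have hd := (ldec_iff (factor_mem h) r hr.deg).2 hr
    have h1 : C.comp (r j) (C.comp b a) = r j := congrArg Subtype.val (hd.left j)
    have h2 : C.comp (C.comp b a) (r j) = r j := congrArg Subtype.val (hd.right j)
    rw [ckOf_sandwich h1 h2, hall _ (isCK_of_ckOf h hr) j i hji _ (hT i x hx)]
    exact map_zero (C.actL a)

/-- Decompositions of the complement exist if the components are algebraic. -/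
lemma exists_ckOf_iff {a : C.A (X.prod Y)} {b : C.A (Y.prod X)} (h : Factor C a b)
    (hnil : NilOff H a b) :
    (∃ r, CKOf H (dg C Y - C.comp b a) r) ↔
      AlgComps H (dg C Y - C.comp b a) := by
  constructor
  · rintro ⟨r, hr⟩ n _
    exact ⟨r n, hr.deg n, hr.act_self n, hr.act_ne n⟩
  · intro hα
    have hs := lsit_factor h hnil
    have hα' : ∀ n : ℕ, ∃ c : ↥(cor0 C Y), n ≤ 2 * Y.dim →
        (∀ x : H.A Y, H.Deg n x → H.act (H.cl (X := Y.prod Y) c.1) x =
          H.act (H.cl (dg C Y - C.comp b a)) x) ∧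
        ∀ (m : ℤ) (x : H.A Y), m ≠ n → H.Deg m x →
          H.act (H.cl (X := Y.prod Y) c.1) x = 0 := by
      intro n
      by_cases hn : n ≤ 2 * Y.dim
      · obtain ⟨c, hc, h1, h2⟩ := hα n hn
        exact ⟨⟨c, hc⟩, fun _ => ⟨h1, h2⟩⟩
      · exact ⟨0, fun h' => absurd h' hn⟩
    choose α hα1 using hα'
    obtain ⟨e, he⟩ := hs.exists_ldec α (by
      intro n m x hn hx
      split_ifs with hm
      · subst hm
        exact (hα1 n hn).1 x hx
      · exact (hα1 n hn).2 m x hm hx)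
    have hq : C.Deg Y.dim (dg C Y - C.comp b a) :=
      Submodule.sub_mem _ (dg_mem C Y) (factor_mem h)
    exact ⟨fun n => (e n).1, (ldec_iff hq _ fun n => (e n).2).1 he⟩

/-- **Vanishing conditions for all Chow-Kunneth decompositions and direct factors.** -/
theorem kill_factor {a : C.A (X.prod Y)} {b : C.A (Y.prod X)} (h : Factor C a b)
    (hnil : NilOff H a b)
    (S : ℕ → ℕ → Prop) (T : ℕ → Submodule ℚ (C.A Y)) (T' : ℕ → Submodule ℚ (C.A X))
    (hTT : ∀ c : C.A (Y.prod Y), C.Deg Y.dim c → ∀ i, ∀ x ∈ T i, C.act c x ∈ T i)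
    (hT : ∀ i, ∀ x ∈ T i, C.act b x ∈ T' i) (hT' : ∀ i, ∀ x ∈ T' i, C.act a x ∈ T i) :
    (HasCK H Y ∧ ∀ π, IsCK H Y π → KillC C S T π) ↔
      (HasCK H X ∧ ∀ π, IsCK H X π → KillC C S T' π) ∧
      (AlgComps H (dg C Y - C.comp b a) ∧
        ∀ r, CKOf H (dg C Y - C.comp b a) r → KillC C S T r) := by
  have hs := lsit_factor h hnil
  have h1 := hs.kill_iff (chow0 C Y) S T fun c i x hx => hTT c.1 c.2 i x hx
  rw [sub_sub_cancel] at h1
  have hq : C.Deg Y.dim (dg C Y - C.comp b a) :=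
    Submodule.sub_mem _ (dg_mem C Y) (factor_mem h)
  have e1 : (1 - ⟨C.comp b a, factor_mem h⟩ : ↥(cor0 C Y)) = ⟨dg C Y - C.comp b a, hq⟩ := rfl
  have e2 : (1 : ↥(cor0 C Y)) = ⟨dg C Y, dg_mem C Y⟩ := rfl
  rw [e1, e2, all_ldec_iff, all_ldec_iff, all_ldec_iff, all_ckOf_iff h S T T' hT hT',
    exists_ckOf_iff h hnil] at h1
  simp only [ckOf_dg] at h1
  exact h1

end Pool.Agent.N103.MU
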