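import Pool.Agent.N103.MU.Conc

/-!
# The conjectures (B) and (D) of Murre for all Chow-Kunneth decompositions and direct factors
-/

open CategoryTheory AlgebraicGeometry

set_option autoImplicit false
set_option linter.unusedSectionVars false

universe u v w

namespace Pool.Agent.N103.MU

open Pool.Agent.H914 Pool.Agent.H914.VarClass Pool.Agent.H914.VarClass.Obj Pool.Agent.W492.BB
  Pool.Agent.W550.Corr Pool.Agent.TH133 Pool.Agent.Y107 Pool.Agent.N103.SD

variable {k : Type u} [Field k] {𝒱 : VarClass k}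

variable {C : TheoryData.{u, v, 0} 𝒱 ℚ} [hC : IsChowProj C] {K : Type w} [Field K]
  {H : WeilTheoryData.{u, v, w} C K} [hH : IsWeilProj H] {X Y : 𝒱.Obj}

section chow

include hC

lemma factor_of_morphism (f : Y ⟶ X) {N : ℚ} (hd : Y.dim = X.dim) (hN : N ≠ 0)
    (hf : C.push f 1 = N • 1) : Factor C (C.cograph f) (N⁻¹ • C.graph f) where
  dim := hd
  left := cograph_mem f
  right := by
    have h1 : N⁻¹ • C.graph f ∈ C.gr (Y.prod X) X.dim := Submodule.smul_mem _ _ (graph_mem' f)
    rwa [← hd] at h1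
  comp := by
    have h1 : C.comp (C.cograph f) (N⁻¹ • C.graph f) = N⁻¹ • C.comp (C.cograph f) (C.graph f) :=
      map_smul (compL C (C.cograph f)) _ _
    have h2 : C.mulCorr (N • (1 : C.A X)) = N • dg C X := map_smul (C.push _) _ _
    rw [h1, cograph_graph, hf, h2, smul_smul, inv_mul_cancel₀ hN, one_smul]

/-- Sums of Tate motives kill cycles of degree zero against their classes. -/
lemma act_tate_zero {m : ℕ} {r : Fin m → ℕ} {u v : Fin m → C.A Y}
    (huv : ∀ i, C.Deg ((Y.dim : ℤ) - r i) (u i) ∧ C.Deg (r i) (v i)) {i : ℕ} {x : C.A Y}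
    (hx : x ∈ C.gr Y i) (h0 : ∀ k, (r k : ℤ) = i → HasDegree C (u k * x) 0) :
    C.act (∑ k, C.ext (u k) (v k)) x = 0 := by
  rw [act_sum]
  apply Finset.sum_eq_zero
  intro k _
  by_cases hk : (r k : ℤ) = i
  · rw [act_ext' (h0 k hk), zero_smul]
  · have hm : u k * x ∈ C.gr Y (((Y.dim : ℤ) - r k) + i) := C.mul_mem (huv k).1 hx
    exact act_ext_zero_of_lt hm (by omega)

end chow

include hC hH

/-- A sum of Tate motives acts as zero on the homologically trivial cycles. -/
lemma act_rest_zero {a : C.A (X.prod Y)} {b : C.A (Y.prod X)} (h : TateRest C a b) {i : ℕ}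
    {x : C.A Y} (hx : x ∈ C.gr Y i) (h0 : H.cl x = 0) :
    C.act (dg C Y - C.comp b a) x = 0 := by
  obtain ⟨m, r, u, v, huv, hdg⟩ := h
  have hq : dg C Y - C.comp b a = ∑ k, C.ext (u k) (v k) := by rw [hdg, add_sub_cancel_left]
  rw [hq]
  refine act_tate_zero huv hx fun k hk => ?_
  have hm : u k * x ∈ C.gr Y (((Y.dim : ℤ) - r k) + i) := C.mul_mem (huv k).1 hx
  rw [hk, sub_add_cancel] at hm
  exact hasDegree_zero_of_cl H hm (by rw [map_mul, h0, mul_zero])

/-- Homologically trivial endomorphisms of a sum of Tate motives have square zero. -/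
lemma nilOff_of_tate {a : C.A (X.prod Y)} {b : C.A (Y.prod X)} (h : TateRest C a b) :
    NilOff H a b := by
  obtain ⟨m, r, u, v, huv, hdg⟩ := h
  intro c hc h0 h1 _
  refine ⟨2, ?_⟩
  have h2 : c = ∑ i, C.ext (u i) (C.act c (v i)) := by
    calc c = C.comp (dg C Y) c := (dg_comp C c).symm
      _ = C.comp b (C.comp a c) + ∑ i, C.comp (C.ext (u i) (v i)) c := by
          rw [hdg, add_comp, sum_comp, comp_assoc]
      _ = _ := by
          rw [h1, comp_zero, zero_add]
          exact Finset.sum_congr rfl fun i _ => ext_comp _ _ _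
  have h3 : ∀ i j, C.comp (C.ext (u i) (C.act c (v i))) (C.ext (u j) (C.act c (v j))) = 0 := by
    intro i j
    have hw : C.act c (v i) ∈ C.gr Y (r i) := act_mem0 C hc (huv i).2
    have hcl : H.cl (C.act c (v i)) = 0 := by
      rw [cl_act, h0]
      exact H.act_zero _
    have hp : C.act c (v i) * u j ∈ C.gr Y ((r i : ℤ) + ((Y.dim : ℤ) - r j)) :=
      C.mul_mem hw (huv j).1
    have hdeg : HasDegree C (C.act c (v i) * u j) 0 := by
      by_cases hij : (r i : ℤ) = r j
      · rw [hij, show (r j : ℤ) + ((Y.dim : ℤ) - r j) = Y.dim by ring] at hp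
        exact hasDegree_zero_of_cl H hp (by rw [map_mul, hcl, zero_mul])
      · exact hasDegree_zero_of_ne hp (by omega)
    rw [comp_ext_ext hdeg, zero_smul]
  change C.comp (C.comp (dg C Y) c) c = 0
  rw [dg_comp]
  have h4 : C.comp c c = ∑ i, ∑ j, C.comp (C.ext (u i) (C.act c (v i)))
      (C.ext (u j) (C.act c (v j))) := by
    conv_lhs => rw [h2]
    rw [sum_comp]
    exact Finset.sum_congr rfl fun i _ => comp_sum C _ _ _
  rw [h4]
  exact Finset.sum_eq_zero fun i _ => Finset.sum_eq_zero fun j _ => h3 i j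

/-- The Kunneth components of a sum of Tate motives are algebraic. -/
lemma components_of_tate {a : C.A (X.prod Y)} {b : C.A (Y.prod X)} (h : TateRest C a b) :
    AlgComps H (dg C Y - C.comp b a) := by
  obtain ⟨m, r, u, v, huv, hdg⟩ := h
  have hq : dg C Y - C.comp b a = ∑ i, C.ext (u i) (v i) := by
    rw [hdg, add_sub_cancel_left]
  rw [hq]
  have hcl : ∀ (s : Fin m → C.A (Y.prod Y)) (x : H.A Y),
      H.act (H.cl (∑ i, s i)) x = ∑ i, H.act (H.cl (s i)) x := by
    intro s x
    rw [map_sum, act_sum]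
  intro n _
  refine ⟨∑ i, if 2 * r i = n then C.ext (u i) (v i) else 0, ?_, ?_, ?_⟩
  · refine Submodule.sum_mem _ fun i _ => ?_
    split_ifs
    · have h1 := ext_mem' (C := C) (huv i).1 (huv i).2
      rwa [sub_add_cancel] at h1
    · exact Submodule.zero_mem _
  · intro x hx
    rw [hcl, hcl]
    refine Finset.sum_congr rfl fun i _ => ?_
    split_ifs with hi
    · rfl
    · rw [act_ext_ne (r := r i) (huv i).2 (huv i).1 (j := n) (by omega) hx]
      exact actH_zero H x
  · intro j x hj hx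
    rw [hcl]
    apply Finset.sum_eq_zero
    intro i _
    split_ifs with hi
    · exact act_ext_ne (r := r i) (huv i).2 (huv i).1 (j := j) (by omega) hx
    · exact actH_zero H x

/-- The members of a decomposition of a sum of Tate motives kill a cycle if its image is
homologically trivial. -/
lemma ckOf_tate_zero {a : C.A (X.prod Y)} {b : C.A (Y.prod X)} (hF : Factor C a b)
    (h : TateRest C a b) {r : ℕ → C.A (Y.prod Y)} (hr : CKOf H (dg C Y - C.comp b a) r) (j : ℕ)
    {i : ℕ} {x : C.A Y} (hx : x ∈ C.gr Y i) (h0 : H.act (H.cl (r j)) (H.cl x) = 0) :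
    C.act (r j) x = 0 := by
  have hq : C.Deg Y.dim (dg C Y - C.comp b a) :=
    Submodule.sub_mem _ (dg_mem C Y) (factor_mem hF)
  have hd := (ldec_iff hq r hr.deg).2 hr
  have h1 : C.comp (r j) (dg C Y - C.comp b a) = r j := congrArg Subtype.val (hd.left j)
  have h2 : C.act (r j) x = C.act (dg C Y - C.comp b a) (C.act (r j) x) := by
    rw [← C.act_comp, h1]
  rw [h2]
  refine act_rest_zero (H := H) h (act_mem0 C (hr.deg j) hx) ?_
  rw [cl_act, h0]

/-- The conditions (B) and (D) hold for all decompositions of a sum of Tate motives. -/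
lemma sat_of_tate {a : C.A (X.prod Y)} {b : C.A (Y.prod X)} (hF : Factor C a b)
    (h : TateRest C a b) {r : ℕ → C.A (Y.prod Y)} (hr : CKOf H (dg C Y - C.comp b a) r) :
    SatB0 C r ∧ SatB1 C r ∧ SatD H r := by
  refine ⟨fun i j x hx hij => ?_, fun i j x hx hij => ?_, fun i j x hx h0 _ => ?_⟩
  · exact ckOf_tate_zero hF h hr j hx (hr.act_ne j (2 * i) _ (by omega) (H.cl_mem hx))
  · exact ckOf_tate_zero hF h hr j hx (hr.act_ne j (2 * i) _ (by omega) (H.cl_mem hx))
  · refine ckOf_tate_zero hF h hr j hx ?_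
    rw [h0, TheoryData.act_map_zero]

/-! ### Translation of the conjectures -/

lemma murreB0_iff' (X : 𝒱.Obj) : MurreB0 H X ↔
    ∀ π, IsCK H X π → KillC C (fun j i => 2 * i < j) (fun i => C.gr X i) π := by
  rw [murreB0_iff]
  exact ⟨fun h π hπ j i hji x hx => h π hπ i j x hx hji,
    fun h π hπ i j x hx hji => h π hπ j i hji x hx⟩

lemma murreB1_iff' (X : 𝒱.Obj) : MurreB1 H X ↔
    ∀ π, IsCK H X π → KillC C (fun j i => j < i) (fun i => C.gr X i) π := by
  have hact : ∀ {π : ℕ → C.A (X.prod X)}, IsCK H X π → ∀ j m (y : C.A X),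
      C.act (π m) (C.act (π j) y) = if j = m then C.act (π j) y else 0 := by
    intro π hπ j m y
    rw [← C.act_comp, hπ.comp_eq]
    split_ifs
    · rfl
    · exact C.act_zero y
  constructor
  · intro h π hπ j i hji x hx
    have h1 : C.act (π j) x ∈ ckFil C π i (i + 1) := by
      rw [hπ.mem_ckFil]
      refine ⟨act_mem0 C (hπ.deg j) hx, fun m hm => ?_⟩
      rw [hact hπ, if_neg (by omega)]
    rw [h π hπ i, Submodule.mem_bot] at h1
    exact h1
  · intro h π hπ i
    rw [eq_bot_iff]
    intro x hx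
    rw [hπ.mem_ckFil] at hx
    rw [Submodule.mem_bot]
    have h1 : C.act (∑ j ∈ Finset.range (2 * X.dim + 1), π j) x = x := by
      rw [hπ.sum, act_dg]
    rw [← h1, act_sum]
    apply Finset.sum_eq_zero
    intro j _
    rcases lt_or_ge j i with hj | hj
    · exact h π hπ j i hj x hx.1
    · exact hx.2 j (by omega)

/-- The homologically trivial cycles of codimension `i`. -/
def homTriv (H : WeilTheoryData.{u, v, w} C K) (X : 𝒱.Obj) (i : ℕ) : Submodule ℚ (C.A X) where
  carrier := {x | x ∈ C.gr X i ∧ H.cl x = 0}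
  add_mem' := fun {x y} hx hy => ⟨Submodule.add_mem _ hx.1 hy.1, by
    rw [map_add, hx.2, hy.2, add_zero]⟩
  zero_mem' := ⟨Submodule.zero_mem _, map_zero _⟩
  smul_mem' := fun q x hx => ⟨Submodule.smul_mem _ q hx.1, by
    rw [← one_mul x, ← smul_mul_assoc, map_mul, hx.2, mul_zero]⟩

lemma murreD_iff' (X : 𝒱.Obj) : MurreD H X ↔
    ∀ π, IsCK H X π → KillC C (fun j i => 2 * i ≤ j) (fun i => homTriv H X i) π := by
  constructor
  · intro h π hπ j i hji x hx
    have h1 := (h π hπ i x).2 hx
    rw [hπ.mem_ckFil] at h1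
    exact h1.2 j (by omega)
  · intro h π hπ i x
    rw [hπ.mem_ckFil]
    constructor
    · rintro ⟨hx, hx'⟩
      refine ⟨hx, ?_⟩
      have h1 : H.act (H.cl (∑ j ∈ Finset.range (2 * X.dim + 1), π j)) (H.cl x) = H.cl x := by
        rw [hπ.sum, actH_dg]
      have hsum : H.cl (∑ j ∈ Finset.range (2 * X.dim + 1), π j) =
          ∑ j ∈ Finset.range (2 * X.dim + 1), H.cl (π j) := map_sum H.cl _ _
      rw [← h1, hsum, act_sum]
      apply Finset.sum_eq_zero
      intro j _
      rcases lt_or_ge j (2 * i) with hj | hj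
      · exact hπ.act_ne j (2 * i) _ (by omega) (H.cl_mem hx)
      · rw [← cl_act, hx' j (by omega), map_zero]
    · rintro ⟨hx, hx'⟩
      exact ⟨hx, fun j hj => h π hπ j i (by omega) x ⟨hx, hx'⟩⟩

/-- **Murre's conjecture (B) for all Chow-Kunneth decompositions.** -/
theorem murreB_factor {a : C.A (X.prod Y)} {b : C.A (Y.prod X)} (h : Factor C a b)
    (hnil : NilOff H a b) :
    ((HasCK H Y ∧ MurreB0 H Y) ↔ (HasCK H X ∧ MurreB0 H X) ∧
      (AlgComps H (dg C Y - C.comp b a) ∧
        ∀ r, CKOf H (dg C Y - C.comp b a) r → SatB0 C r)) ∧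
    ((HasCK H Y ∧ MurreB1 H Y) ↔ (HasCK H X ∧ MurreB1 H X) ∧
      (AlgComps H (dg C Y - C.comp b a) ∧
        ∀ r, CKOf H (dg C Y - C.comp b a) r → SatB1 C r)) := by
  have ha : ∀ i : ℕ, ∀ x ∈ C.gr X i, C.act a x ∈ C.gr Y i := by
    intro i x hx
    have := act_mem' C (e := 0) (by rw [add_zero]; exact h.left) hx
    rwa [add_zero] at this
  have hb : ∀ i : ℕ, ∀ x ∈ C.gr Y i, C.act b x ∈ C.gr X i := by
    intro i x hx
    have := act_mem' C (e := 0) (by rw [add_zero]; exact h.right) hx
    rwa [add_zero] at this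
  constructor
  · rw [murreB0_iff', murreB0_iff', kill_factor h hnil (fun j i => 2 * i < j)
      (fun i => C.gr Y i) (fun i => C.gr X i) (fun c hc i x hx => act_mem0 C hc hx) hb ha]
    refine and_congr_right fun _ => and_congr_right fun _ => forall_congr' fun r =>
      forall_congr' fun _ => ?_
    exact ⟨fun h' i j x hx hij => h' j i hij x hx, fun h' j i hij x hx => h' i j x hx hij⟩
  · rw [murreB1_iff', murreB1_iff', kill_factor h hnil (fun j i => j < i)
      (fun i => C.gr Y i) (fun i => C.gr X i) (fun c hc i x hx => act_mem0 C hc hx) hb ha]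
    refine and_congr_right fun _ => and_congr_right fun _ => forall_congr' fun r =>
      forall_congr' fun _ => ?_
    exact ⟨fun h' i j x hx hij => h' j i hij x hx, fun h' j i hij x hx => h' i j x hx hij⟩

/-- **Murre's conjecture (D) for all Chow-Kunneth decompositions.** -/
theorem murreD_factor {a : C.A (X.prod Y)} {b : C.A (Y.prod X)} (h : Factor C a b)
    (hnil : NilOff H a b) :
    ((HasCK H Y ∧ MurreD H Y) ↔ (HasCK H X ∧ MurreD H X) ∧
      (AlgComps H (dg C Y - C.comp b a) ∧
        ∀ r, CKOf H (dg C Y - C.comp b a) r → SatD H r)) := by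
  have hcl : ∀ {Z W : 𝒱.Obj} (Γ : C.A (Z.prod W)) (x : C.A Z), H.cl x = 0 →
      H.cl (C.act Γ x) = 0 := by
    intro Z W Γ x hx
    rw [cl_act, hx, TheoryData.act_map_zero]
  have ha : ∀ i : ℕ, ∀ x ∈ homTriv H X i, C.act a x ∈ homTriv H Y i := by
    intro i x hx
    have := act_mem' C (e := 0) (by rw [add_zero]; exact h.left) hx.1
    rw [add_zero] at this
    exact ⟨this, hcl a x hx.2⟩
  have hb : ∀ i : ℕ, ∀ x ∈ homTriv H Y i, C.act b x ∈ homTriv H X i := by
    intro i x hx
    have := act_mem' C (e := 0) (by rw [add_zero]; exact h.right) hx.1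
    rw [add_zero] at this
    exact ⟨this, hcl b x hx.2⟩
  rw [murreD_iff', murreD_iff', kill_factor h hnil (fun j i => 2 * i ≤ j)
    (fun i => homTriv H Y i) (fun i => homTriv H X i)
    (fun c hc i x hx => ⟨act_mem0 C hc hx.1, hcl c x hx.2⟩) hb ha]
  refine and_congr_right fun _ => and_congr_right fun _ => forall_congr' fun r =>
    forall_congr' fun _ => ?_
  exact ⟨fun h' i j x hx h0 hij => h' j i hij x ⟨hx, h0⟩,
    fun h' j i hij x hx => h' i j x hx.1 hx.2 hij⟩

end Pool.Agent.N103.MU
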