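import Pool.Agent.N103.MU.Lin

/-!
# The filtration attached to a decomposition
-/

set_option autoImplicit false
set_option linter.unusedSectionVars false

namespace Pool.Agent.N103.MU

open Polynomial Pool.Agent.N103.SD

variable {A : Type*} [Ring A] [Algebra ℚ A] {K V : Type*} [Field K] [AddCommGroup V] [Module K V]
  {ρ : A →+* Module.End K V} {G : ℤ → Submodule K V} {d : ℕ} {q : A}

/-- **Moving a decomposition**, refined: the unit lies in every subalgebra containing `q` and the
elements acting as zero which factor through `q`. -/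
theorem LSit.exists_move' (h : LSit ρ G d q) {p : ℕ → A} (hp : LDec ρ G d 1 p) :
    ∃ u v : A, v * u = 1 ∧ u * v = 1 ∧ ρ u = 1 ∧ (∀ n, Commute (v * p n * u) q) ∧
      ∀ P : Subalgebra ℚ A, q ∈ P → (∀ c, ρ c = 0 → q * c = c ∨ c * q = c → c ∈ P) →
        u ∈ P ∧ v ∈ P := by
  have hρ1 : ρ 1 = 1 := map_one ρ
  obtain ⟨e, he⟩ := h.exists_ldec (fun n => q * p n * q) (by
    intro n m x _ hx
    rw [map_mul, map_mul, Module.End.mul_apply, Module.End.mul_apply,
      hp.act n m _ (h.pres q m x hx)]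
    split_ifs
    · rw [hρ1, Module.End.one_apply, ← Module.End.mul_apply, ← map_mul, h.qq]
    · rw [map_zero])
  set Φ : A := ∑ n ∈ Finset.range (2 * d + 1), p n * e n with hΦ
  set Φ' : A := ∑ n ∈ Finset.range (2 * d + 1), e n * p n with hΦ'
  have hpΦ : ∀ n, p n * Φ = p n * e n := by
    intro n
    by_cases hn : n ≤ 2 * d
    · rw [hΦ, Finset.mul_sum, Finset.sum_eq_single n]
      · rw [← mul_assoc, hp.mul, if_pos rfl]
      · intro m _ hm
        rw [← mul_assoc, hp.mul, if_neg (Ne.symm hm), zero_mul]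
      · intro h'
        exact absurd (Finset.mem_range.2 (by omega)) h'
    · rw [hp.out n (by omega), zero_mul, zero_mul]
  have hΦe : ∀ n, Φ * e n = p n * e n := by
    intro n
    by_cases hn : n ≤ 2 * d
    · rw [hΦ, Finset.sum_mul, Finset.sum_eq_single n]
      · rw [mul_assoc, he.mul, if_pos rfl]
      · intro m _ hm
        rw [mul_assoc, he.mul, if_neg hm, mul_zero]
      · intro h'
        exact absurd (Finset.mem_range.2 (by omega)) h'
    · rw [he.out n (by omega), mul_zero, mul_zero]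
  have hΦp : ∀ n, Φ' * p n = e n * p n := by
    intro n
    by_cases hn : n ≤ 2 * d
    · rw [hΦ', Finset.sum_mul, Finset.sum_eq_single n]
      · rw [mul_assoc, hp.mul, if_pos rfl]
      · intro m _ hm
        rw [mul_assoc, hp.mul, if_neg hm, mul_zero]
      · intro h'
        exact absurd (Finset.mem_range.2 (by omega)) h'
    · rw [hp.out n (by omega), mul_zero, mul_zero]
  have heΦ : ∀ n, e n * Φ' = e n * p n := by
    intro n
    by_cases hn : n ≤ 2 * d
    · rw [hΦ', Finset.mul_sum, Finset.sum_eq_single n]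
      · rw [← mul_assoc, he.mul, if_pos rfl]
      · intro m _ hm
        rw [← mul_assoc, he.mul, if_neg (Ne.symm hm), zero_mul]
      · intro h'
        exact absurd (Finset.mem_range.2 (by omega)) h'
    · rw [he.out n (by omega), zero_mul, zero_mul]
  have hΦq : Φ * q = Φ := by
    rw [hΦ, Finset.sum_mul]
    exact Finset.sum_congr rfl fun n _ => by rw [mul_assoc, he.right]
  have hqΦ : q * Φ' = Φ' := by
    rw [hΦ', Finset.mul_sum]
    exact Finset.sum_congr rfl fun n _ => by rw [← mul_assoc, he.left]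
  have hactΦ : ρ Φ = ρ q := by
    apply h.ext'
    intro m x hx
    rw [hΦ, map_sum, LinearMap.sum_apply]
    have e1 : ∀ n ∈ Finset.range (2 * d + 1), ρ (p n * e n) x =
        if m = n then ρ q x else 0 := by
      intro n _
      rw [map_mul, Module.End.mul_apply, he.act n m x hx]
      split_ifs with hmn
      · rw [hp.act n m _ (h.pres q m x hx), if_pos hmn, hρ1]; rfl
      · rw [map_zero]
    rw [Finset.sum_congr rfl e1, h.sum_ite hx (fun _ => ρ q)]
    split_ifs with hm
    · rfl
    · rw [h.low m (by omega), Submodule.mem_bot] at hx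
      rw [hx, map_zero]
  have hactΦ' : ρ Φ' = ρ q := by
    apply h.ext'
    intro m x hx
    rw [hΦ', map_sum, LinearMap.sum_apply]
    have e1 : ∀ n ∈ Finset.range (2 * d + 1), ρ (e n * p n) x =
        if m = n then ρ q x else 0 := by
      intro n _
      rw [map_mul, Module.End.mul_apply, hp.act n m x hx]
      split_ifs with hmn
      · rw [he.act n m _ (h.pres 1 m x hx), if_pos hmn, hρ1]; rfl
      · rw [map_zero]
    rw [Finset.sum_congr rfl e1, h.sum_ite hx (fun _ => ρ q)]
    split_ifs with hm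
    · rfl
    · rw [h.low m (by omega), Submodule.mem_bot] at hx
      rw [hx, map_zero]
  have hρqq : ρ q * ρ q = ρ q := by rw [← map_mul, h.qq]
  set x : A := Φ' * Φ - q with hx
  have hqx : q * x = x := by rw [hx, mul_sub, ← mul_assoc, hqΦ, h.qq]
  have hxq : x * q = x := by rw [hx, sub_mul, mul_assoc, hΦq, h.qq]
  have hρx : ρ x = 0 := by rw [hx, map_sub, map_mul, hactΦ, hactΦ', hρqq, sub_self]
  have hxe : ∀ n, Commute x (e n) := by
    intro n
    rw [Commute, SemiconjBy, hx, sub_mul, mul_sub, he.left, he.right, mul_assoc, hΦe,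
      ← mul_assoc, hΦp, ← mul_assoc, heΦ, mul_assoc (e n) (p n) Φ, hpΦ, mul_assoc]
  obtain ⟨W, hW⟩ : IsUnit (1 + x) := (h.nil x hqx hxq hρx).isUnit_one_add
  have hWe : ∀ y : A, Commute x y → Commute (↑W⁻¹ : A) y := by
    intro y hy
    refine Commute.units_inv_left ?_
    rw [hW]
    exact (Commute.one_left y).add_left hy
  set w : A := (↑W⁻¹ : A) with hw
  have hw1 : (1 + x) * w = 1 := by rw [← hW, hw, Units.mul_inv]
  have hρw : ρ w = 1 := by
    have e1 := congrArg ρ hw1
    rwa [map_mul, map_add, hρx, hρ1, add_zero, one_mul] at e1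
  have hwq : Commute w q := hWe q (by rw [Commute, SemiconjBy, hqx, hxq])
  set Ψ : A := Φ * w with hΨdef
  have hΨΨ : Φ' * Ψ = q := by
    calc Φ' * Ψ = (x + q) * w := by rw [hΨdef, hx, sub_add_cancel, mul_assoc]
      _ = q * ((1 + x) * w) := by
          have e1 : x + q = q * (1 + x) := by rw [mul_add, mul_one, hqx, add_comm]
          rw [e1, mul_assoc]
      _ = q := by rw [hw1, mul_one]
  have hΨq : Ψ * q = Ψ := by rw [hΨdef, mul_assoc, hwq.eq, ← mul_assoc, hΦq]
  have hpΨ : ∀ n, p n * Ψ = Ψ * e n := by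
    intro n
    rw [hΨdef, ← mul_assoc, hpΦ, mul_assoc Φ w, (hWe _ (hxe n)).eq, ← mul_assoc, hΦe]
  have hactΨ : ρ Ψ = ρ q := by rw [hΨdef, map_mul, hactΦ, hρw, mul_one]
  obtain ⟨b, b1, b2, b3, b4⟩ := h.exists_inv (z := Φ' * q) (by rw [← mul_assoc, hqΦ])
    (by rw [mul_assoc, h.qq]) (by rw [map_mul, hactΦ', hρqq])
  obtain ⟨c, c1, c2, c3, c4⟩ := h.exists_inv (z := q * Ψ) (by rw [← mul_assoc, h.qq])
    (by rw [mul_assoc, hΨq]) (by rw [map_mul, hactΨ, hρqq])
  obtain ⟨g1, g2, g3, g4⟩ := exists_unit (q := q) (Ψ := Ψ) (r := Φ') (b := b) (c := c) h.qq hΨΨ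
    hΨq hqΦ b1 b2 c1 c2 b3 b4 c3 c4
  have hρσ : ρ (1 - (q + Ψ) * b * (q + Φ')) = 1 - 2 * ρ q := by
    have e1 : ρ b * (2 * ρ q) = ρ q := by
      have e3 := congrArg ρ b3
      rwa [map_mul, map_add, map_mul, hactΦ', hρqq, ← two_mul] at e3
    rw [map_sub, hρ1, map_mul, map_mul ρ (q + Ψ), map_add, map_add, hactΨ, hactΦ', ← two_mul,
      mul_assoc, e1, mul_assoc, hρqq]
  set σ : A := 1 - (q + Ψ) * b * (q + Φ') with hσ
  set τ : A := 1 - (q + Ψ) * c * (q + Φ') with hτ
  have hr : (1 - 2 * q) * (1 - 2 * q) = 1 := by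
    calc (1 - 2 * q) * (1 - 2 * q) = 1 + 4 * (q * q - q) := by noncomm_ring
      _ = 1 := by rw [h.qq, sub_self, mul_zero, add_zero]
  have hqr : q * (1 - 2 * q) = -q := by
    calc q * (1 - 2 * q) = q - 2 * (q * q) := by noncomm_ring
      _ = -q := by rw [h.qq, two_mul]; abel
  have hrq : (1 - 2 * q) * q = -q := by
    calc (1 - 2 * q) * q = q - 2 * (q * q) := by noncomm_ring
      _ = -q := by rw [h.qq, two_mul]; abel
  have huv : σ * (1 - 2 * q) * ((1 - 2 * q) * τ) = 1 := by
    rw [mul_assoc, ← mul_assoc (1 - 2 * q), hr, one_mul, g2]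
  have hvu : (1 - 2 * q) * τ * (σ * (1 - 2 * q)) = 1 := by
    rw [mul_assoc, ← mul_assoc τ, g1, one_mul, hr]
  refine ⟨σ * (1 - 2 * q), (1 - 2 * q) * τ, hvu, huv, ?_, ?_, ?_⟩
  · rw [map_mul, hρσ, map_sub, hρ1, map_mul, map_ofNat]
    calc (1 - 2 * ρ q) * (1 - 2 * ρ q) = 1 + 4 * (ρ q * ρ q - ρ q) := by noncomm_ring
      _ = 1 := by rw [hρqq, sub_self, mul_zero, add_zero]
  · intro n
    have hf1 : σ * (1 - 2 * q) * q = Ψ := by rw [mul_assoc, hrq, mul_neg, g3, neg_neg]
    have hf2 : q * ((1 - 2 * q) * τ) = Φ' := by rw [← mul_assoc, hqr, neg_mul, g4, neg_neg]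
    set u : A := σ * (1 - 2 * q) with hu
    set v : A := (1 - 2 * q) * τ with hv
    rw [Commute, SemiconjBy]
    calc v * p n * u * q = v * (p n * (u * q)) := by simp only [mul_assoc]
      _ = v * (Ψ * e n) := by rw [hf1, hpΨ]
      _ = v * (u * q) * e n := by rw [← mul_assoc, hf1]
      _ = e n := by rw [← mul_assoc v, hvu, one_mul, he.left]
      _ = e n * (q * v) * u := by rw [mul_assoc, mul_assoc q, hvu, mul_one, he.right]
      _ = Φ' * p n * u := by rw [hf2, heΦ, hΦp]
      _ = q * (v * p n * u) := by rw [← hf2]; simp only [mul_assoc]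
  · intro P hq hP
    have m1 : Ψ ∈ P := by
      have h1 : Ψ - q ∈ P := hP _ (by rw [map_sub, hactΨ, sub_self])
        (Or.inr (by rw [sub_mul, hΨq, h.qq]))
      have h2 := P.add_mem h1 hq
      rwa [sub_add_cancel] at h2
    have m2 : Φ' ∈ P := by
      have h1 : Φ' - q ∈ P := hP _ (by rw [map_sub, hactΦ', sub_self])
        (Or.inl (by rw [mul_sub, hqΦ, h.qq]))
      have h2 := P.add_mem h1 hq
      rwa [sub_add_cancel] at h2
    have key : ∀ y : A, q * y = y → y * q = y → ∀ z : A, ρ z = ρ q → y * (q + z) = q →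
        y ∈ P := by
      intro y hy1 hy2 z hz hy3
      have e3 := congrArg ρ hy3
      rw [map_mul, map_add, hz, ← two_mul] at e3
      have e4 : ρ ((2 : ℚ) • y - q) = 0 := by
        have e5 : (2 : ℚ) • y = y * 2 * q := by
          have e6 : (2 : A) = algebraMap ℚ A 2 := by rw [map_ofNat]
          rw [mul_assoc, e6, Algebra.commutes, ← mul_assoc, hy2, ← Algebra.commutes,
            ← Algebra.smul_def]
        rw [e5, map_sub, mul_assoc, map_mul, map_mul, map_ofNat, e3, sub_self]
      have h1 : (2 : ℚ) • y - q ∈ P := hP _ e4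
        (Or.inl (by rw [mul_sub, mul_smul_comm, hy1, h.qq]))
      have h2 := P.smul_mem (P.add_mem h1 hq) (1 / 2 : ℚ)
      rw [sub_add_cancel, smul_smul] at h2
      norm_num at h2
      exact h2
    have m3 : b ∈ P := key b b2 b1 _ (by rw [map_mul, hactΦ', hρqq]) b3
    have m4 : c ∈ P := key c c2 c1 _ (by rw [map_mul, hactΨ, hρqq]) c3
    have m5 : (1 - 2 * q) ∈ P := by
      have : (2 : A) = algebraMap ℚ A 2 := by rw [map_ofNat]
      rw [this]
      exact P.sub_mem P.one_mem (P.mul_mem (P.algebraMap_mem 2) hq)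
    have m6 : q + Ψ ∈ P := P.add_mem hq m1
    have m7 : q + Φ' ∈ P := P.add_mem hq m2
    exact ⟨P.mul_mem (P.sub_mem P.one_mem (P.mul_mem (P.mul_mem m6 m3) m7)) m5,
      P.mul_mem m5 (P.sub_mem P.one_mem (P.mul_mem (P.mul_mem m6 m4) m7))⟩

section fil

variable {W : Type*} [AddCommGroup W] [Module ℚ W] (χ : A →+* Module.End ℚ W)
  (T : Submodule ℚ W)

/-- A step of the filtration attached to the decomposition `p` of `e`. -/
def InFil (e : A) (p : ℕ → A) (N : ℕ) (x : W) : Prop :=
  x ∈ T ∧ χ e x = x ∧ ∀ j, N ≤ j → χ (p j) x = 0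

variable {χ T}

lemma chi_mul (a b : A) (x : W) : χ (a * b) x = χ a (χ b x) := by
  rw [map_mul, Module.End.mul_apply]

lemma chi_zero (x : W) : χ 0 x = 0 := by rw [map_zero]; rfl

lemma inFil_conj (hT : ∀ a x, x ∈ T → χ a x ∈ T) {p : ℕ → A} {u v : A} (h1 : v * u = 1)
    (h2 : u * v = 1) (N : ℕ) (x : W) :
    InFil χ T 1 (fun n => v * p n * u) N x ↔ InFil χ T 1 p N (χ u x) := by
  have hu : χ v (χ u x) = x := by rw [← chi_mul, h1, map_one]; rfl
  constructor
  · rintro ⟨hx, _, hj⟩
    refine ⟨hT u x hx, by rw [map_one]; rfl, fun j hN => ?_⟩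
    have h3 := hj j hN
    have h4 := congrArg (χ u) h3
    rw [← chi_mul, map_zero] at h4
    have e1 : u * (v * p j * u) = p j * u := by rw [← mul_assoc, ← mul_assoc, h2, one_mul]
    rw [e1, chi_mul] at h4
    exact h4
  · rintro ⟨hx, _, hj⟩
    refine ⟨?_, by rw [map_one]; rfl, fun j hN => ?_⟩
    · have := hT v _ hx
      rwa [hu] at this
    · rw [chi_mul, chi_mul, hj j hN, map_zero]

/-- Independence of the step `N` of the filtration from the decomposition of `e`. -/
def Ind (ρ : A →+* Module.End K V) (G : ℤ → Submodule K V) (d : ℕ) (χ : A →+* Module.End ℚ W)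
    (T : Submodule ℚ W) (N : ℕ) (e : A) : Prop :=
  ∀ p p', LDec ρ G d e p → LDec ρ G d e p' → ∀ x, InFil χ T e p N x → InFil χ T e p' N x

/-- Elements acting as zero between the two summands preserve the step `N` of the filtrations. -/
def Mix (ρ : A →+* Module.End K V) (G : ℤ → Submodule K V) (d : ℕ) (χ : A →+* Module.End ℚ W)
    (T : Submodule ℚ W) (N : ℕ) (q : A) : Prop :=
  ∀ r e, LDec ρ G d (1 - q) r → LDec ρ G d q e → ∀ c, ρ c = 0 →
    (q * c * (1 - q) = c → ∀ x, InFil χ T (1 - q) r N x → InFil χ T q e N (χ c x)) ∧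
    ((1 - q) * c * q = c → ∀ x, InFil χ T q e N x → InFil χ T (1 - q) r N (χ c x))

lemma inFil_add {x y : W} {e : A} {p : ℕ → A} {N : ℕ} (hx : InFil χ T e p N x)
    (hy : InFil χ T e p N y) : InFil χ T e p N (x + y) :=
  ⟨T.add_mem hx.1 hy.1, by rw [map_add, hx.2.1, hy.2.1], fun j hj => by
    rw [map_add, hx.2.2 j hj, hy.2.2 j hj, add_zero]⟩

lemma inFil_smul {x : W} {e : A} {p : ℕ → A} {N : ℕ} (c : ℚ) (hx : InFil χ T e p N x) :
    InFil χ T e p N (c • x) :=
  ⟨T.smul_mem c hx.1, by rw [map_smul, hx.2.1], fun j hj => by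
    rw [map_smul, hx.2.2 j hj, smul_zero]⟩

lemma inFil_zero (e : A) (p : ℕ → A) (N : ℕ) : InFil χ T e p N 0 :=
  ⟨T.zero_mem, map_zero _, fun _ _ => map_zero _⟩

/-- The filtration of a sum of decompositions. -/
lemma inFil_glue {r e : ℕ → A} (hq1 : q * (1 - q) = 0) (hq2 : (1 - q) * q = 0)
    (hT : ∀ a x, x ∈ T → χ a x ∈ T)
    (hr : LDec ρ G d (1 - q) r) (he : LDec ρ G d q e) (N : ℕ) (x : W) :
    InFil χ T 1 (fun n => r n + e n) N x ↔
      InFil χ T (1 - q) r N (χ (1 - q) x) ∧ InFil χ T q e N (χ q x) := by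
  have hqq : q * q = q := by
    rw [mul_sub, mul_one, sub_eq_zero] at hq1
    exact hq1.symm
  have hqq' : (1 - q) * (1 - q) = 1 - q := by
    rw [mul_sub, mul_one, hq2, sub_zero]
  have er : ∀ j, r j * (r j + e j) = r j := by
    intro j
    rw [mul_add, hr.mul, if_pos rfl, ← hr.right j, ← he.left j, mul_assoc, ← mul_assoc (1 - q) q,
      hq2, zero_mul, mul_zero, add_zero, hr.right]
  have ee : ∀ j, e j * (r j + e j) = e j := by
    intro j
    rw [mul_add, he.mul, if_pos rfl, ← he.right j, ← hr.left j, mul_assoc, ← mul_assoc q (1 - q),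
      hq1, zero_mul, mul_zero, zero_add, he.right]
  constructor
  · rintro ⟨hx, _, hj⟩
    refine ⟨⟨hT _ _ hx, by rw [← chi_mul, hqq'], fun j hN => ?_⟩,
      ⟨hT _ _ hx, by rw [← chi_mul, hqq], fun j hN => ?_⟩⟩
    · rw [← chi_mul, hr.right, ← er j, chi_mul, hj j hN, map_zero]
    · rw [← chi_mul, he.right, ← ee j, chi_mul, hj j hN, map_zero]
  · rintro ⟨⟨h1, _, h3⟩, ⟨h4, _, h6⟩⟩
    refine ⟨?_, by rw [map_one]; rfl, fun j hN => ?_⟩
    · have := T.add_mem h1 h4
      rwa [← LinearMap.add_apply, ← map_add, sub_add_cancel, map_one] at this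
    · have e1 := h3 j hN
      have e2 := h6 j hN
      rw [← chi_mul, hr.right] at e1
      rw [← chi_mul, he.right] at e2
      rw [map_add, LinearMap.add_apply, e1, e2, add_zero]

/-- **Steps of the filtration and cancellation.** -/
theorem LSit.ind_iff (h : LSit ρ G d q) (hT : ∀ a x, x ∈ T → χ a x ∈ T) (N : ℕ) :
    ((∃ p, LDec ρ G d 1 p) ∧ Ind ρ G d χ T N 1) ↔
      ((∃ r, LDec ρ G d (1 - q) r) ∧ Ind ρ G d χ T N (1 - q)) ∧
      ((∃ e, LDec ρ G d q e) ∧ Ind ρ G d χ T N q) ∧ Mix ρ G d χ T N q := by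
  have hq1 : q * (1 - q) = 0 := by rw [mul_sub, mul_one, h.qq, sub_self]
  have hq2 : (1 - q) * q = 0 := by rw [sub_mul, one_mul, h.qq, sub_self]
  have hqq' : (1 - q) * (1 - q) = 1 - q := by rw [mul_sub, mul_one, hq2, sub_zero]
  have hglue : ∀ {r e : ℕ → A}, LDec ρ G d (1 - q) r → LDec ρ G d q e →
      LDec ρ G d 1 (fun n => r n + e n) := by
    intro r e hr he
    have h5 := hr.glue he hq2 hq1
    rwa [sub_add_cancel] at h5
  -- membership in the glued filtration for elements of the summands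
  have g1 : ∀ {r e : ℕ → A}, LDec ρ G d (1 - q) r → LDec ρ G d q e → ∀ x,
      InFil χ T (1 - q) r N x → InFil χ T 1 (fun n => r n + e n) N x := by
    intro r e hr he x hx
    rw [inFil_glue hq1 hq2 hT hr he]
    refine ⟨by rw [hx.2.1]; exact hx, ?_⟩
    rw [← hx.2.1, ← chi_mul, hq1, chi_zero]
    exact inFil_zero _ _ _
  have g2 : ∀ {r e : ℕ → A}, LDec ρ G d (1 - q) r → LDec ρ G d q e → ∀ x,
      InFil χ T q e N x → InFil χ T 1 (fun n => r n + e n) N x := by
    intro r e hr he x hx
    rw [inFil_glue hq1 hq2 hT hr he]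
    refine ⟨?_, by rw [hx.2.1]; exact hx⟩
    rw [← hx.2.1, ← chi_mul, hq2, chi_zero]
    exact inFil_zero _ _ _
  constructor
  · rintro ⟨hex, hall⟩
    obtain ⟨⟨r0, hr0⟩, ⟨e0, he0⟩⟩ := h.iff.1 hex
    refine ⟨⟨⟨r0, hr0⟩, fun r r' hr hr' x hx => ?_⟩, ⟨⟨e0, he0⟩, fun e e' he he' x hx => ?_⟩,
      fun r e hr he c hc => ⟨fun hc1 x hx => ?_, fun hc1 x hx => ?_⟩⟩
    · have h1 := hall _ _ (hglue hr he0) (hglue hr' he0) x (g1 hr he0 x hx)
      rw [inFil_glue hq1 hq2 hT hr' he0, hx.2.1] at h1
      exact h1.1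
    · have h1 := hall _ _ (hglue hr0 he) (hglue hr0 he') x (g2 hr0 he x hx)
      rw [inFil_glue hq1 hq2 hT hr0 he', hx.2.1] at h1
      exact h1.2
    · have hcc : c * c = 0 := by
        rw [← hc1, mul_assoc (q * c), ← mul_assoc (1 - q), ← mul_assoc (1 - q), hq2]
        simp
      have hvu : (1 - c) * (1 + c) = 1 := by
        calc (1 - c) * (1 + c) = 1 - c * c := by noncomm_ring
          _ = 1 := by rw [hcc, sub_zero]
      have huv : (1 + c) * (1 - c) = 1 := by
        calc (1 + c) * (1 - c) = 1 - c * c := by noncomm_ring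
          _ = 1 := by rw [hcc, sub_zero]
      have hm := (hglue hr he).conj hvu huv (by rw [map_add, hc, add_zero, map_one])
      have h1 := hall _ _ (hglue hr he) hm x (g1 hr he x hx)
      rw [inFil_conj hT hvu huv, inFil_glue hq1 hq2 hT hr he] at h1
      have h2 := h1.2
      have e1 : q * (1 + c) = q + c := by
        have e2 : q * c = c := by rw [← hc1, ← mul_assoc, ← mul_assoc, h.qq]
        rw [mul_add, mul_one, e2]
      rw [← chi_mul, e1, map_add, LinearMap.add_apply, ← hx.2.1, ← chi_mul q, hq1, chi_zero,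
        zero_add, hx.2.1] at h2
      exact h2
    · have hcc : c * c = 0 := by
        rw [← hc1, mul_assoc ((1 - q) * c), ← mul_assoc q, ← mul_assoc q, hq1]
        simp
      have hvu : (1 - c) * (1 + c) = 1 := by
        calc (1 - c) * (1 + c) = 1 - c * c := by noncomm_ring
          _ = 1 := by rw [hcc, sub_zero]
      have huv : (1 + c) * (1 - c) = 1 := by
        calc (1 + c) * (1 - c) = 1 - c * c := by noncomm_ring
          _ = 1 := by rw [hcc, sub_zero]
      have hm := (hglue hr he).conj hvu huv (by rw [map_add, hc, add_zero, map_one])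
      have h1 := hall _ _ (hglue hr he) hm x (g2 hr he x hx)
      rw [inFil_conj hT hvu huv, inFil_glue hq1 hq2 hT hr he] at h1
      have h2 := h1.1
      have e1 : (1 - q) * (1 + c) = (1 - q) + c := by
        have e2 : (1 - q) * c = c := by rw [← hc1, ← mul_assoc, ← mul_assoc, hqq']
        rw [mul_add, mul_one, e2]
      rw [← chi_mul, e1, map_add, LinearMap.add_apply, ← hx.2.1, ← chi_mul (1 - q), hq2, chi_zero,
        zero_add, hx.2.1] at h2
      exact h2
  · rintro ⟨⟨⟨r0, hr0⟩, hr⟩, ⟨⟨e0, he0⟩, he⟩, hmix⟩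
    refine ⟨⟨_, hglue hr0 he0⟩, ?_⟩
    -- the filtrations of all decompositions commuting with `q` agree
    have key1 : ∀ p, LDec ρ G d 1 p → (∀ n, Commute (p n) q) → ∀ x,
        InFil χ T 1 p N x ↔ InFil χ T 1 (fun n => r0 n + e0 n) N x := by
      intro p hp hc x
      have s1 : LDec ρ G d (1 - q) (fun n => (1 - q) * p n) := hp.split hqq' fun n =>
        (Commute.one_right _).sub_right (hc n)
      have s2 : LDec ρ G d q (fun n => q * p n) := hp.split h.qq hc
      have e1 : p = fun n => (1 - q) * p n + q * p n := by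
        funext n
        rw [← add_mul, sub_add_cancel, one_mul]
      rw [e1, inFil_glue hq1 hq2 hT s1 s2, inFil_glue hq1 hq2 hT hr0 he0]
      exact and_congr ⟨fun h' => hr _ _ s1 hr0 _ h', fun h' => hr _ _ hr0 s1 _ h'⟩
        ⟨fun h' => he _ _ s2 he0 _ h', fun h' => he _ _ he0 s2 _ h'⟩
    -- the subalgebra of the elements preserving the filtration
    let P : Subalgebra ℚ A :=
      { carrier := {c | ∀ x, InFil χ T 1 (fun n => r0 n + e0 n) N x →
          InFil χ T 1 (fun n => r0 n + e0 n) N (χ c x)}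
        mul_mem' := fun {a b} ha hb x hx => by rw [chi_mul]; exact ha _ (hb _ hx)
        add_mem' := fun {a b} ha hb x hx => by
          rw [map_add, LinearMap.add_apply]; exact inFil_add (ha x hx) (hb x hx)
        algebraMap_mem' := fun c x hx => by
          have e1 : χ (algebraMap ℚ A c) x = c • x := by
            simp
          rw [e1]
          exact inFil_smul c hx }
    have hqP : q ∈ P := by
      intro x hx
      rw [inFil_glue hq1 hq2 hT hr0 he0] at hx
      exact g2 hr0 he0 _ hx.2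
    have hcP : ∀ c, ρ c = 0 → q * c = c ∨ c * q = c → c ∈ P := by
      intro c hc hor
      have m1 : q * c * (1 - q) ∈ P := by
        intro x hx
        rw [inFil_glue hq1 hq2 hT hr0 he0] at hx
        have h1 := (hmix r0 e0 hr0 he0 (q * c * (1 - q)) (by
          rw [map_mul, map_mul, hc, mul_zero, zero_mul])).1 (by
          calc q * (q * c * (1 - q)) * (1 - q) = (q * q) * c * ((1 - q) * (1 - q)) := by
                simp only [mul_assoc]
            _ = _ := by rw [h.qq, hqq']) _ hx.1
        rw [← chi_mul, mul_assoc, hqq'] at h1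
        exact g2 hr0 he0 _ h1
      have m2 : (1 - q) * c * q ∈ P := by
        intro x hx
        rw [inFil_glue hq1 hq2 hT hr0 he0] at hx
        have h1 := (hmix r0 e0 hr0 he0 ((1 - q) * c * q) (by
          rw [map_mul, map_mul, hc, mul_zero, zero_mul])).2 (by
          calc (1 - q) * ((1 - q) * c * q) * q = ((1 - q) * (1 - q)) * c * (q * q) := by
                simp only [mul_assoc]
            _ = _ := by rw [h.qq, hqq']) _ hx.2
        rw [← chi_mul, mul_assoc, h.qq] at h1
        exact g1 hr0 he0 _ h1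
      have m3 : q * c * q ∈ P := by
        set y : A := q * c * q with hy
        have hqy : q * y = y := by rw [hy, ← mul_assoc, ← mul_assoc, h.qq]
        have hyq : y * q = y := by rw [hy, mul_assoc, h.qq]
        have hρy : ρ y = 0 := by rw [hy, map_mul, map_mul, hc, mul_zero, zero_mul]
        obtain ⟨U, hU⟩ : IsUnit (1 + y) := (h.nil y hqy hyq hρy).isUnit_one_add
        have hρU : ρ (U : A) = 1 := by rw [hU, map_add, hρy, add_zero, map_one]
        have hcU : Commute (U : A) q := by
          rw [hU]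
          refine Commute.add_left (Commute.one_left q) ?_
          rw [Commute, SemiconjBy, hqy, hyq]
        have hcU' : Commute (↑U⁻¹ : A) q := hcU.units_inv_left
        have hvu : (↑U⁻¹ : A) * (U : A) = 1 := U.inv_mul
        have huv : (U : A) * (↑U⁻¹ : A) = 1 := U.mul_inv
        have hm := (hglue hr0 he0).conj hvu huv hρU
        have hcomm : ∀ n, Commute ((fun n => r0 n + e0 n) n) q := by
          intro n
          have c1 : Commute (r0 n) q := by
            rw [Commute, SemiconjBy, ← hr0.right n, mul_assoc, hq2, mul_zero, hr0.right,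
              ← hr0.left n, ← mul_assoc, hq1, zero_mul]
          have c2 : Commute (e0 n) q := by rw [Commute, SemiconjBy, he0.left, he0.right]
          exact c1.add_left c2
        intro x hx
        have h1 := (key1 _ hm (fun n => (hcU'.mul_left (hcomm n)).mul_left hcU) x).2 hx
        rw [inFil_conj hT hvu huv, hU, map_add, LinearMap.add_apply, map_one] at h1
        have h2 := inFil_add h1 (inFil_smul (-1) hx)
        have e1 : (1 : Module.End ℚ W) x + χ y x + (-1 : ℚ) • x = χ y x := by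
          rw [Module.End.one_apply, neg_one_smul]
          abel
        rwa [e1] at h2
      have e1 : c = q * c * q + q * c * (1 - q) + (1 - q) * c * q + (1 - q) * c * (1 - q) := by
        noncomm_ring
      have e2 : (1 - q) * c * (1 - q) = 0 := by
        rcases hor with h' | h'
        · rw [← h', ← mul_assoc (1 - q), hq2, zero_mul, zero_mul]
        · rw [← h', ← mul_assoc (1 - q), mul_assoc _ q, hq1, mul_zero]
      rw [e2, add_zero] at e1
      rw [e1]
      exact P.add_mem (P.add_mem m3 m1) m2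
    have key2 : ∀ p, LDec ρ G d 1 p → ∀ x,
        InFil χ T 1 p N x ↔ InFil χ T 1 (fun n => r0 n + e0 n) N x := by
      intro p hp x
      obtain ⟨u, v, h1, h2, h3, h4, h5⟩ := h.exists_move' hp
      have hm := hp.conj h1 h2 h3
      obtain ⟨hu, hv⟩ := h5 P hqP hcP
      have hx : χ u (χ v x) = x := by rw [← chi_mul, h2, map_one]; rfl
      have hx' : χ v (χ u x) = x := by rw [← chi_mul, h1, map_one]; rfl
      have h6 := inFil_conj (p := p) hT h1 h2 N (χ v x)
      rw [hx] at h6
      rw [← h6, key1 _ hm h4]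
      constructor
      · intro h'
        have := hu _ h'
        rwa [hx] at this
      · intro h'
        exact hv _ h'
    intro p p' hp hp' x hx
    rw [key2 p' hp']
    rwa [key2 p hp] at hx

end fil

end Pool.Agent.N103.MU
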