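import Pool.Agent.N103.MU.DefsC
import Pool.Agent.N103.MU.LinC
import Pool.Agent.N103.MU.Final

/-!
# Steps of the filtration and direct factors
-/

open CategoryTheory AlgebraicGeometry

set_option autoImplicit false
set_option linter.unusedSectionVars false

universe u v w

namespace Pool.Agent.N103.MU

open Pool.Agent.H914 Pool.Agent.H914.VarClass Pool.Agent.H914.VarClass.Obj Pool.Agent.W492.BB
  Pool.Agent.W550.Corr Pool.Agent.TH133 Pool.Agent.Y107 Pool.Agent.N103.SD

variable {k : Type u} [Field k] {𝒱 : VarClass k}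

variable {C : TheoryData.{u, v, 0} 𝒱 ℚ} [hC : IsChowProj C] {K : Type w} [Field K]
  {H : WeilTheoryData.{u, v, w} C K} [hH : IsWeilProj H] {X Y : 𝒱.Obj}

include hC hH

lemma CKOf.mul_eq {e : C.A (Y.prod Y)} {r : ℕ → C.A (Y.prod Y)} (h : CKOf H e r) (i j : ℕ) :
    C.comp (r i) (r j) = if i = j then r i else 0 := by
  split_ifs with hij
  · subst hij
    exact h.idem i
  · exact h.orth i j hij

lemma CKOf.comp_right {e : C.A (Y.prod Y)} {r : ℕ → C.A (Y.prod Y)} (h : CKOf H e r) (j : ℕ) :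
    C.comp (r j) e = r j := by
  have he : C.Deg Y.dim e := by
    rw [← h.sum]
    exact Submodule.sum_mem _ fun j _ => h.deg j
  exact congrArg Subtype.val (((ldec_iff he r h.deg).2 h).left j)

lemma CKOf.comp_left {e : C.A (Y.prod Y)} {r : ℕ → C.A (Y.prod Y)} (h : CKOf H e r) (j : ℕ) :
    C.comp e (r j) = r j := by
  have he : C.Deg Y.dim e := by
    rw [← h.sum]
    exact Submodule.sum_mem _ fun j _ => h.deg j
  exact congrArg Subtype.val (((ldec_iff he r h.deg).2 h).right j)

lemma CKOf.mem_ckFil {e : C.A (Y.prod Y)} {r : ℕ → C.A (Y.prod Y)} (h : CKOf H e r) (i n : ℕ)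
    (x : C.A Y) : x ∈ ckFil C r i n ↔
      x ∈ C.gr Y i ∧ C.act e x = x ∧ ∀ j, 2 * i + 1 - n ≤ j → C.act (r j) x = 0 := by
  have hact : ∀ j m (y : C.A Y), C.act (r m) (C.act (r j) y) =
      if j = m then C.act (r j) y else 0 := by
    intro j m y
    rw [← C.act_comp, h.mul_eq]
    split_ifs
    · rfl
    · exact C.act_zero y
  constructor
  · rintro ⟨y, hy, rfl⟩
    rw [TheoryData.actL_apply, act_sum]
    refine ⟨Submodule.sum_mem _ fun j _ => act_mem0 C (h.deg j) hy, ?_, fun m hm => ?_⟩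
    · rw [act_map_sum]
      refine Finset.sum_congr rfl fun j _ => ?_
      rw [← C.act_comp, h.comp_right]
    · rw [act_map_sum]
      apply Finset.sum_eq_zero
      intro j hj
      rw [Finset.mem_range] at hj
      rw [hact, if_neg (by omega)]
  · rintro ⟨hx, hex, hx'⟩
    refine ⟨x, hx, ?_⟩
    rw [TheoryData.actL_apply]
    have hs : ∑ j ∈ Finset.range (2 * Y.dim + 1 + (2 * i + 1 - n)), r j = e := by
      rw [← h.sum]
      symm
      apply Finset.sum_subset
      · intro j hj
        rw [Finset.mem_range] at *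
        omega
      · intro j _ hj
        rw [Finset.mem_range] at hj
        exact h.out j (by omega)
    have h1 : C.act (∑ j ∈ Finset.range (2 * Y.dim + 1 + (2 * i + 1 - n)), r j) x = x := by
      rw [hs, hex]
    rw [act_sum] at h1 ⊢
    have h3 : ∑ j ∈ Finset.range (2 * i + 1 - n), C.act (r j) x =
        ∑ j ∈ Finset.range (2 * Y.dim + 1 + (2 * i + 1 - n)), C.act (r j) x := by
      apply Finset.sum_subset
      · intro j hj
        rw [Finset.mem_range] at *
        omega
      · intro j _ hj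
        rw [Finset.mem_range] at hj
        exact hx' j (by omega)
    rw [h3, h1]

/-- Independence for the motive `(Y, e)`. -/
lemma ind_stepOf {e : C.A (Y.prod Y)} (he : C.Deg Y.dim e) (i n : ℕ) :
    Ind (act0 C Y H) (fun m => H.gr Y m) Y.dim (chow0 C Y) (C.gr Y i) (2 * i + 1 - n)
      (⟨e, he⟩ : ↥(cor0 C Y)) ↔ StepOf H e i n := by
  constructor
  · intro h r r' hr hr'
    have h1 := h _ _ ((ldec_iff he r hr.deg).2 hr) ((ldec_iff he r' hr'.deg).2 hr')
    have h2 := h _ _ ((ldec_iff he r' hr'.deg).2 hr') ((ldec_iff he r hr.deg).2 hr)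
    ext x
    rw [hr.mem_ckFil, hr'.mem_ckFil]
    exact ⟨fun hx => h1 x hx, fun hx => h2 x hx⟩
  · intro h p p' hp hp' x hx
    have k1 := (ldec_iff he (fun n => (p n).1) fun n => (p n).2).1 hp
    have k2 := (ldec_iff he (fun n => (p' n).1) fun n => (p' n).2).1 hp'
    have h1 : x ∈ ckFil C (fun n => (p n).1) i n := (k1.mem_ckFil i n x).2 hx
    rw [h _ _ k1 k2] at h1
    exact (k2.mem_ckFil i n x).1 h1

lemma stepOf_dg (X : 𝒱.Obj) (i n : ℕ) : StepOf H (dg C X) i n ↔ StepC H X i n := by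
  simp only [StepOf, StepC, ckOf_dg]

omit hH in
lemma factor_act_ab {a : C.A (X.prod Y)} {b : C.A (Y.prod X)} (h : Factor C a b) (x : C.A X) :
    C.act b (C.act a x) = x := by
  rw [← C.act_comp, h.comp, act_dg]

omit hH in
lemma factor_mem_a {a : C.A (X.prod Y)} {b : C.A (Y.prod X)} (h : Factor C a b) {i : ℤ} {x : C.A X}
    (hx : x ∈ C.gr X i) : C.act a x ∈ C.gr Y i := by
  have := act_mem' C (e := 0) (by rw [add_zero]; exact h.left) hx
  rwa [add_zero] at this

omit hH in
lemma factor_mem_b {a : C.A (X.prod Y)} {b : C.A (Y.prod X)} (h : Factor C a b) {i : ℤ} {x : C.A Y}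
    (hx : x ∈ C.gr Y i) : C.act b x ∈ C.gr X i := by
  have := act_mem' C (e := 0) (by rw [add_zero]; exact h.right) hx
  rwa [add_zero] at this

lemma fil_up {a : C.A (X.prod Y)} {b : C.A (Y.prod X)} (h : Factor C a b)
    {π : ℕ → C.A (X.prod X)} (hπ : IsCK H X π) (i n : ℕ) (x : C.A X) :
    x ∈ ckFil C π i n ↔ C.act a x ∈ ckFil C (fun n => C.comp (C.comp b (π n)) a) i n := by
  rw [hπ.mem_ckFil, (ckOf_of_isCK h hπ).mem_ckFil]
  have e1 : ∀ j, C.act (C.comp (C.comp b (π j)) a) (C.act a x) = C.act a (C.act (π j) x) := by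
    intro j
    rw [C.act_comp, C.act_comp, factor_act_ab h]
  constructor
  · rintro ⟨hx, hj⟩
    refine ⟨factor_mem_a h hx, by rw [C.act_comp, factor_act_ab h], fun j hN => ?_⟩
    rw [e1, hj j hN]
    exact map_zero (C.actL a)
  · rintro ⟨hx, _, hj⟩
    refine ⟨?_, fun j hN => ?_⟩
    · have := factor_mem_b h hx
      rwa [factor_act_ab h] at this
    · have h1 := hj j hN
      rw [e1] at h1
      have h2 := congrArg (C.act b) h1
      rw [factor_act_ab h] at h2
      rw [h2]
      exact map_zero (C.actL b)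

lemma fil_down {a : C.A (X.prod Y)} {b : C.A (Y.prod X)} (h : Factor C a b)
    {r : ℕ → C.A (Y.prod Y)} (hr : CKOf H (C.comp b a) r) (i n : ℕ) (y : C.A Y) :
    y ∈ ckFil C r i n ↔ C.act (C.comp b a) y = y ∧
      C.act b y ∈ ckFil C (fun n => C.comp (C.comp a (r n)) b) i n := by
  rw [hr.mem_ckFil, (isCK_of_ckOf h hr).mem_ckFil]
  constructor
  · rintro ⟨hx, he, hj⟩
    refine ⟨he, factor_mem_b h hx, fun j hN => ?_⟩
    rw [C.act_comp, C.act_comp, ← C.act_comp b a y, he, hj j hN]
    exact map_zero (C.actL b)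
  · rintro ⟨he, hx, hj⟩
    refine ⟨?_, he, fun j hN => ?_⟩
    · rw [← he, C.act_comp]
      exact factor_mem_a h hx
    · rw [ckOf_sandwich (hr.comp_right j) (hr.comp_left j), hj j hN]
      exact map_zero (C.actL a)

lemma stepOf_factor {a : C.A (X.prod Y)} {b : C.A (Y.prod X)} (h : Factor C a b) (i n : ℕ) :
    StepOf H (C.comp b a) i n ↔ StepC H X i n := by
  constructor
  · intro hs π π' hπ hπ'
    ext x
    rw [fil_up h hπ, fil_up h hπ', hs _ _ (ckOf_of_isCK h hπ) (ckOf_of_isCK h hπ')]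
  · intro hs r r' hr hr'
    ext x
    rw [fil_down h hr, fil_down h hr', hs _ _ (isCK_of_ckOf h hr) (isCK_of_ckOf h hr')]

lemma exists_ckOf_factor {a : C.A (X.prod Y)} {b : C.A (Y.prod X)} (h : Factor C a b) :
    (∃ r, CKOf H (C.comp b a) r) ↔ HasCK H X :=
  ⟨fun ⟨_, hr⟩ => ⟨_, isCK_of_ckOf h hr⟩, fun ⟨_, hπ⟩ => ⟨_, ckOf_of_isCK h hπ⟩⟩

lemma exists_ldec_iff {e : C.A (Y.prod Y)} (he : C.Deg Y.dim e) :
    (∃ r, LDec (act0 C Y H) (fun m => H.gr Y m) Y.dim (⟨e, he⟩ : ↥(cor0 C Y)) r) ↔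
      ∃ r, CKOf H e r :=
  ⟨fun ⟨r, hr⟩ => ⟨fun n => (r n).1, (ldec_iff he _ fun n => (r n).2).1 hr⟩,
    fun ⟨r, hr⟩ => ⟨_, (ldec_iff he r hr.deg).2 hr⟩⟩

lemma mixed_iff {a : C.A (X.prod Y)} {b : C.A (Y.prod X)} (h : Factor C a b) (i n : ℕ) :
    Mix (act0 C Y H) (fun m => H.gr Y m) Y.dim (chow0 C Y) (C.gr Y i) (2 * i + 1 - n)
      (1 - ⟨C.comp b a, factor_mem h⟩ : ↥(cor0 C Y)) ↔ MixedStep H a b i n := by
  have hq : C.Deg Y.dim (dg C Y - C.comp b a) :=
    Submodule.sub_mem _ (dg_mem C Y) (factor_mem h)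
  have ha' : a ∈ C.gr (X.prod Y) ((X.dim : ℤ) + 0) := by rw [add_zero]; exact h.left
  have hb' : b ∈ C.gr (Y.prod X) ((Y.dim : ℤ) + 0) := by rw [add_zero]; exact h.right
  have hqb : C.comp (dg C Y - C.comp b a) b = 0 := by
    rw [sub_comp, dg_comp, comp_assoc, h.comp, comp_dg, sub_self]
  have haq : C.comp a (dg C Y - C.comp b a) = 0 := by
    rw [comp_sub, comp_dg, ← comp_assoc, h.comp, dg_comp, sub_self]
  constructor
  · intro hm π r hπ hr
    have k1 := ckOf_of_isCK h hπ
    have l1 : LDec (act0 C Y H) (fun m => H.gr Y m) Y.dim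
        (1 - (1 - ⟨C.comp b a, factor_mem h⟩) : ↥(cor0 C Y))
        (fun n => ⟨C.comp (C.comp b (π n)) a, k1.deg n⟩) := by
      rw [sub_sub_cancel]
      exact (ldec_iff (factor_mem h) _ k1.deg).2 k1
    have l2 : LDec (act0 C Y H) (fun m => H.gr Y m) Y.dim
        (1 - ⟨C.comp b a, factor_mem h⟩ : ↥(cor0 C Y)) (fun n => ⟨r n, hr.deg n⟩) :=
      (ldec_iff hq r hr.deg).2 hr
    constructor
    · intro α ⟨hα, hcl⟩ hαb x hx
      have hαq : C.comp α (dg C Y - C.comp b a) = α := by
        rw [comp_sub, comp_dg, ← comp_assoc, hαb, zero_comp, sub_zero]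
      have hc : C.Deg Y.dim (C.comp b α) := by
        have h3 := comp_mem C hb' (show α ∈ C.gr (X.prod Y) ((X.dim : ℤ) + 0) by
          rw [add_zero]; exact hα)
        rwa [add_zero, add_zero] at h3
      have h1 := (hm _ _ l1 l2 ⟨C.comp b α, hc⟩ (by
        ext y
        change H.act (H.cl (C.comp b α)) y = 0
        rw [cl_comp, hcl, comp_zero]
        exact H.act_zero _)).1 (by
        apply Subtype.ext
        change C.comp (dg C Y - (dg C Y - C.comp b a)) (C.comp (C.comp b α)
          (dg C Y - C.comp b a)) = C.comp b α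
        rw [sub_sub_cancel, comp_assoc C b α, hαq, comp_assoc C b a, ← comp_assoc C a b α, h.comp,
          dg_comp]) (C.act a x) (by
        have h2 := (fil_up h hπ i n x).1 hx
        rw [sub_sub_cancel]
        exact (k1.mem_ckFil i n _).1 h2)
      have h3 := (hr.mem_ckFil i n _).2 h1
      have e1 : C.act (C.comp b α) (C.act a x) = C.act α x := by
        rw [C.act_comp, factor_act_ab h]
      rw [← e1]
      exact h3
    · intro β ⟨hβ, hcl⟩ haβ x hx
      have hqβ : C.comp (dg C Y - C.comp b a) β = β := by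
        rw [sub_comp, dg_comp, comp_assoc, haβ, comp_zero, sub_zero]
      have hc : C.Deg Y.dim (C.comp β a) := by
        have h3 := comp_mem C (show β ∈ C.gr (Y.prod X) ((Y.dim : ℤ) + 0) by
          rw [add_zero]; exact hβ) ha'
        rwa [add_zero, add_zero] at h3
      have h1 := (hm _ _ l1 l2 ⟨C.comp β a, hc⟩ (by
        ext y
        change H.act (H.cl (C.comp β a)) y = 0
        rw [cl_comp, hcl, zero_comp]
        exact H.act_zero _)).2 (by
        apply Subtype.ext
        change C.comp (dg C Y - C.comp b a) (C.comp (C.comp β a)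
          (dg C Y - (dg C Y - C.comp b a))) = C.comp β a
        rw [sub_sub_cancel, comp_assoc C β a, ← comp_assoc C a b a, h.comp, dg_comp,
          ← comp_assoc C _ β a, hqβ]) x ((hr.mem_ckFil i n x).1 hx)
      rw [sub_sub_cancel] at h1
      have h3 := (k1.mem_ckFil i n _).2 h1
      rw [fil_up h hπ]
      have e1 : C.act (C.comp β a) x = C.act a (C.act β x) := C.act_comp _ _ _
      rw [← e1]
      exact h3
  · rintro hm r e hr he ⟨c, hcm⟩ hc
    change C.A (Y.prod Y) at c
    change C.Deg Y.dim c at hcm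
    rw [sub_sub_cancel] at hr
    have k1 := (ldec_iff (factor_mem h) (fun n => (r n).1) fun n => (r n).2).1 hr
    have k2 := (ldec_iff hq (fun n => (e n).1) fun n => (e n).2).1 he
    have hcl : H.cl c = 0 := hom_zero_of_act H fun x => LinearMap.congr_fun hc x
    have h0 := hm _ _ (isCK_of_ckOf h k1) k2
    constructor
    · intro h1 x hx
      have h1' : C.comp (dg C Y - (dg C Y - C.comp b a)) (C.comp c
          (dg C Y - C.comp b a)) = c := congrArg Subtype.val h1
      rw [sub_sub_cancel] at h1' hx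
      have h2 : x ∈ ckFil C (fun n => (r n).1) i n := (k1.mem_ckFil i n x).2 hx
      rw [fil_down h k1] at h2
      have h3 := h0.1 (C.comp a c) ⟨(by
        have h3 := comp_mem C ha' (show c ∈ C.gr (Y.prod Y) ((Y.dim : ℤ) + 0) by
          rw [add_zero]; exact hcm)
        rwa [add_zero, add_zero] at h3), (by rw [cl_comp, hcl, comp_zero])⟩ (by
        rw [← h1']
        simp only [comp_assoc C]
        rw [hqb]
        simp only [comp_zero])
        _ h2.2
      have e1 : C.act (C.comp a c) (C.act b x) = C.act c x := by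
        rw [C.act_comp, ← C.act_comp b a, h2.1]
      rw [e1] at h3
      exact (k2.mem_ckFil i n _).1 h3
    · intro h1 x hx
      have h1' : C.comp (dg C Y - C.comp b a) (C.comp c
          (dg C Y - (dg C Y - C.comp b a))) = c := congrArg Subtype.val h1
      rw [sub_sub_cancel] at h1' ⊢
      have h2 : x ∈ ckFil C (fun n => (e n).1) i n := (k2.mem_ckFil i n x).2 hx
      have h3 := h0.2 (C.comp c b) ⟨(by
        have h3 := comp_mem C (show c ∈ C.gr (Y.prod Y) ((Y.dim : ℤ) + 0) by
          rw [add_zero]; exact hcm) hb'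
        rwa [add_zero, add_zero] at h3), (by rw [cl_comp, hcl, zero_comp])⟩ (by
        rw [← h1']
        simp only [← comp_assoc C]
        rw [haq]
        simp only [zero_comp]) _ h2
      have e2 : C.act (C.comp b a) (C.act c x) = C.act c x := by
        rw [← C.act_comp]
        congr 1
        rw [← h1']
        simp only [comp_assoc C]
        rw [← comp_assoc C a b a, h.comp, dg_comp]
      have h4 : C.act c x ∈ ckFil C (fun n => (r n).1) i n := by
        rw [fil_down h k1]
        refine ⟨e2, ?_⟩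
        rw [← C.act_comp]
        exact h3
      exact (k1.mem_ckFil i n _).1 h4

/-- **One step of the filtration, all Chow-Kunneth decompositions, and direct factors.** -/
theorem step_factor {a : C.A (X.prod Y)} {b : C.A (Y.prod X)} (h : Factor C a b)
    (hnil : NilOff H a b) (i n : ℕ) :
    (HasCK H Y ∧ StepC H Y i n) ↔
      (HasCK H X ∧ StepC H X i n) ∧
      (AlgComps H (dg C Y - C.comp b a) ∧ StepOf H (dg C Y - C.comp b a) i n) ∧
      MixedStep H a b i n := by
  have hs := lsit_factor h hnil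
  have h1 := hs.ind_iff (χ := chow0 C Y) (T := C.gr Y i)
    (fun c x hx => act_mem0 C c.2 hx) (2 * i + 1 - n)
  rw [mixed_iff h, sub_sub_cancel] at h1
  have hq : C.Deg Y.dim (dg C Y - C.comp b a) :=
    Submodule.sub_mem _ (dg_mem C Y) (factor_mem h)
  have e1 : (1 - ⟨C.comp b a, factor_mem h⟩ : ↥(cor0 C Y)) = ⟨dg C Y - C.comp b a, hq⟩ := rfl
  have e2 : (1 : ↥(cor0 C Y)) = ⟨dg C Y, dg_mem C Y⟩ := rfl
  rw [e1, e2, exists_ldec_iff, exists_ldec_iff, exists_ldec_iff, ind_stepOf, ind_stepOf,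
    ind_stepOf, stepOf_dg, stepOf_factor h, exists_ckOf_factor h, exists_ckOf_iff h hnil] at h1
  simp only [ckOf_dg] at h1
  exact h1

/-- The steps `F^n`, `n ≥ 1`, for a sum of Tate motives are zero. -/
lemma ckFil_tate {a : C.A (X.prod Y)} {b : C.A (Y.prod X)} (h : TateRest C a b)
    {r : ℕ → C.A (Y.prod Y)} (hr : CKOf H (dg C Y - C.comp b a) r) {i n : ℕ} (hn : 1 ≤ n) :
    ckFil C r i n = ⊥ := by
  rw [eq_bot_iff]
  intro x hx
  rw [hr.mem_ckFil] at hx
  obtain ⟨hx, he, hj⟩ := hx
  rw [Submodule.mem_bot, ← he]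
  refine act_rest_zero (H := H) h hx ?_
  rw [← he, cl_act, ← hr.sum]
  have hsum : H.cl (∑ j ∈ Finset.range (2 * Y.dim + 1), r j) =
      ∑ j ∈ Finset.range (2 * Y.dim + 1), H.cl (r j) := map_sum H.cl _ _
  rw [hsum, act_sum]
  apply Finset.sum_eq_zero
  intro j _
  rcases lt_or_ge j (2 * i) with hj' | hj'
  · exact hr.act_ne j (2 * i) _ (by omega) (H.cl_mem hx)
  · rw [← cl_act, hj j (by omega), map_zero]

/-- The mixed condition is void for `n ≥ 1` and a complement which is a sum of Tate motives. -/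
lemma mixed_tate {a : C.A (X.prod Y)} {b : C.A (Y.prod X)} (h : TateRest C a b) {i n : ℕ}
    (hn : 1 ≤ n) : MixedStep H a b i n := by
  intro π r hπ hr
  constructor
  · intro α ⟨hα, hcl⟩ hαb x hx
    have hαq : C.comp α (dg C Y - C.comp b a) = α := by
      rw [comp_sub, comp_dg, ← comp_assoc, hαb, zero_comp, sub_zero]
    rw [hπ.mem_ckFil] at hx
    have hm : C.act α x ∈ C.gr Y i := by
      have := act_mem' C (e := 0) (by rw [add_zero]; exact hα) hx.1
      rwa [add_zero] at this
    have h1 : C.act α x = 0 := by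
      rw [← hαq, C.act_comp]
      refine act_rest_zero (H := H) h hm ?_
      rw [cl_act, hcl]
      exact H.act_zero _
    rw [h1]
    exact Submodule.zero_mem _
  · intro β _ haβ x hx
    rw [ckFil_tate h hr hn, Submodule.mem_bot] at hx
    rw [hx]
    have h1 : C.act β 0 = 0 := map_zero (C.actL β)
    rw [h1]
    exact Submodule.zero_mem _

/-- **One step, complement a sum of Tate motives.** -/
theorem step_tate {a : C.A (X.prod Y)} {b : C.A (Y.prod X)} (h : Factor C a b)
    (hT : TateRest C a b) (i : ℕ) {n : ℕ} (hn : 1 ≤ n) :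
    (HasCK H Y ∧ StepC H Y i n) ↔ (HasCK H X ∧ StepC H X i n) := by
  rw [step_factor h (nilOff_of_tate (H := H) hT) i n]
  exact ⟨fun h' => h'.1, fun h' => ⟨h', ⟨components_of_tate hT, fun r r' hr hr' => by
    rw [ckFil_tate hT hr hn, ckFil_tate hT hr' hn]⟩, mixed_tate hT hn⟩⟩

/-- The step `F^0` is independent of the decomposition iff it is everything. -/
lemma murreC_iff (X : 𝒱.Obj) :
    MurreC H X ↔ MurreB0 H X ∧ ∀ i n, 1 ≤ n → StepC H X i n := by
  constructor
  · intro h
    exact ⟨murreB0_of_C0 X fun π π' hπ hπ' i => h π π' hπ hπ' i 0,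
      fun i n _ π π' hπ hπ' => h π π' hπ hπ' i n⟩
  · rintro ⟨h0, h1⟩ π π' hπ hπ' i n
    rcases Nat.eq_zero_or_pos n with rfl | hn
    · rw [h0 π hπ, h0 π' hπ']
    · exact h1 i n hn π π' hπ hπ'

/-- **Murre's conjecture (C), complement a sum of Tate motives.** -/
theorem murreC_tate {a : C.A (X.prod Y)} {b : C.A (Y.prod X)} (h : Factor C a b)
    (hT : TateRest C a b) : (HasCK H Y ∧ MurreC H Y) ↔ (HasCK H X ∧ MurreC H X) := by
  have h0 : (HasCK H Y ∧ MurreB0 H Y) ↔ (HasCK H X ∧ MurreB0 H X) := by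
    rw [(murreB_factor h (nilOff_of_tate (H := H) hT)).1]
    exact ⟨fun h' => h'.1, fun h' => ⟨h', components_of_tate hT, fun r hr =>
      (sat_of_tate h hT hr).1⟩⟩
  rw [murreC_iff, murreC_iff]
  constructor
  · rintro ⟨h1, h2, h3⟩
    have h4 := h0.1 ⟨h1, h2⟩
    exact ⟨h4.1, h4.2, fun i n hn => ((step_tate h hT i hn).1 ⟨h1, h3 i n hn⟩).2⟩
  · rintro ⟨h1, h2, h3⟩
    have h4 := h0.2 ⟨h1, h2⟩
    exact ⟨h4.1, h4.2, fun i n hn => ((step_tate h hT i hn).2 ⟨h1, h3 i n hn⟩).2⟩

omit hH in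
lemma corPow_eq_iterate (c : C.A (Y.prod Y)) (n : ℕ) :
    corPow C c n = (C.comp c)^[n] (dg C Y) := by
  have h1 : ∀ n, ∀ x : C.A (Y.prod Y),
      C.comp ((C.comp c)^[n] x) c = (C.comp c)^[n] (C.comp x c) := by
    intro n
    induction n with
    | zero => intro x; rfl
    | succ n ih => intro x; rw [Function.iterate_succ_apply, ih, comp_assoc C c x c]; rfl
  induction n with
  | zero => rfl
  | succ n ih =>
    change C.comp (corPow C c n) c = _
    rw [ih, h1, dg_comp, Function.iterate_succ_apply, comp_dg]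

omit hC hH in
lemma nilOff_iff [IsChowProj C] (a : C.A (X.prod Y)) (b : C.A (Y.prod X)) :
    NilRest H a b ↔ NilOff H a b := by
  simp only [NilRest, NilOff, HomTriv, corPow_eq_iterate, and_imp]

end Pool.Agent.N103.MU
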