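import Pool.Agent.Y107.SDDefs

/-!
# Chow-Kunneth decompositions of projectors and the conjectures of Murre: definitions
-/

open CategoryTheory AlgebraicGeometry

set_option autoImplicit false

universe u v w

namespace Pool.Agent.N103.MU

open Pool.Agent.H914 Pool.Agent.H914.VarClass Pool.Agent.H914.VarClass.Obj Pool.Agent.W492.BB
  Pool.Agent.W550.Corr Pool.Agent.TH133 Pool.Agent.Y107

variable {k : Type u} [Field k] {𝒱 : VarClass k}

section chow

variable (C : TheoryData.{u, v, 0} 𝒱 ℚ) {X Y : 𝒱.Obj}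

/-- `h(X)` is a direct factor of `h(Y)`, `dim Y = dim X`, with embedding `a : h(X) → h(Y)` and
projection `b : h(Y) → h(X)`: correspondences of degree zero with `b ∘ a = 1`. -/
structure Factor (a : C.A (X.prod Y)) (b : C.A (Y.prod X)) : Prop where
  dim : Y.dim = X.dim
  left : C.Deg X.dim a
  right : C.Deg Y.dim b
  comp : C.comp a b = dg C X

/-- The complement of the factor is a sum of Tate motives: the diagonal of `Y` is
`a ∘ b + ∑ u_i × v_i` with `u_i ∈ CH^(dim Y - r_i)(Y)` and `v_i ∈ CH^(r_i)(Y)`. -/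
def TateRest (a : C.A (X.prod Y)) (b : C.A (Y.prod X)) : Prop :=
  ∃ (m : ℕ) (r : Fin m → ℕ) (u v : Fin m → C.A Y),
    (∀ i, C.Deg ((Y.dim : ℤ) - r i) (u i) ∧ C.Deg (r i) (v i)) ∧
    dg C Y = C.comp b a + ∑ i, C.ext (u i) (v i)

/-- The first half of (B) for the family `r`: `r j` acts as zero on `CH^i(Y)` for `j > 2 i`. -/
def SatB0 (r : ℕ → C.A (Y.prod Y)) : Prop :=
  ∀ (i j : ℕ) (x : C.A Y), C.Deg i x → 2 * i < j → C.act (r j) x = 0

/-- The second half of (B) for the family `r`: `r j` acts as zero on `CH^i(Y)` for `j < i`. -/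
def SatB1 (r : ℕ → C.A (Y.prod Y)) : Prop :=
  ∀ (i j : ℕ) (x : C.A Y), C.Deg i x → j < i → C.act (r j) x = 0

end chow

section weil

variable {C : TheoryData.{u, v, 0} 𝒱 ℚ} {K : Type w} [Field K] (H : WeilTheoryData.{u, v, w} C K)

/-- The condition (D) for the family `r`: `r j` acts as zero on the homologically trivial part of
`CH^i(Y)` for `j ≥ 2 i`. -/
def SatD {Y : 𝒱.Obj} (r : ℕ → C.A (Y.prod Y)) : Prop :=
  ∀ (i j : ℕ) (x : C.A Y), C.Deg i x → H.cl x = 0 → 2 * i ≤ j → C.act (r j) x = 0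

/-- `X` has a Chow-Kunneth decomposition. -/
def HasCK (X : 𝒱.Obj) : Prop := ∃ π : ℕ → C.A (X.prod X), IsCK H X π

/-- The family `r` is a Chow-Kunneth decomposition of the motive `(Y, e)`: self-correspondences
`r 0, …, r (2 dim Y)` of degree zero (`r n = 0` for `n > 2 dim Y`) which are mutually orthogonal
idempotents with sum `e`, such that `r n` acts as `e` on `H^n(Y)` and as zero on `H^m(Y)` for
`m ≠ n`. -/
structure CKOf {Y : 𝒱.Obj} (e : C.A (Y.prod Y)) (r : ℕ → C.A (Y.prod Y)) : Prop where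
  deg : ∀ n, C.Deg Y.dim (r n)
  out : ∀ n, 2 * Y.dim < n → r n = 0
  idem : ∀ n, C.comp (r n) (r n) = r n
  orth : ∀ m n, m ≠ n → C.comp (r m) (r n) = 0
  sum : ∑ n ∈ Finset.range (2 * Y.dim + 1), r n = e
  act_self : ∀ (n : ℕ) (x : H.A Y), H.Deg n x → H.act (H.cl (r n)) x = H.act (H.cl e) x
  act_ne : ∀ (n : ℕ) (m : ℤ) (x : H.A Y), m ≠ n → H.Deg m x → H.act (H.cl (r n)) x = 0

/-- The Kunneth components of the projector `q` of `Y` are algebraic: for `n ≤ 2 dim Y` there is a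
self-correspondence of degree zero which acts as `q` on `H^n(Y)` and as zero on `H^m(Y)` for
`m ≠ n`. -/
def AlgComps {Y : 𝒱.Obj} (q : C.A (Y.prod Y)) : Prop :=
  ∀ n ≤ 2 * Y.dim, ∃ b : C.A (Y.prod Y), C.Deg Y.dim b ∧
    (∀ x : H.A Y, H.Deg n x → H.act (H.cl b) x = H.act (H.cl q) x) ∧
    ∀ (m : ℤ) (x : H.A Y), m ≠ n → H.Deg m x → H.act (H.cl b) x = 0

/-- The homologically trivial endomorphisms of the complement of the factor are nilpotent: a
homologically trivial self-correspondence `c` of degree zero of `Y` with `c ∘ a = 0` and `b ∘ c = 0`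
is nilpotent. -/
def NilOff {X Y : 𝒱.Obj} (a : C.A (X.prod Y)) (b : C.A (Y.prod X)) : Prop :=
  ∀ c : C.A (Y.prod Y), C.Deg Y.dim c → H.cl c = 0 → C.comp a c = 0 → C.comp c b = 0 →
    ∃ n, corPow C c n = 0

end weil

end Pool.Agent.N103.MU
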