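import Pool.Agent.N103.MU.Defs

/-!
# One step of the filtration attached to a Chow-Kunneth decomposition: definitions
-/

open CategoryTheory AlgebraicGeometry

set_option autoImplicit false

universe u v w

namespace Pool.Agent.N103.MU

open Pool.Agent.H914 Pool.Agent.H914.VarClass Pool.Agent.H914.VarClass.Obj Pool.Agent.W492.BB
  Pool.Agent.W550.Corr Pool.Agent.TH133

variable {k : Type u} [Field k] {𝒱 : VarClass k} {X Y : 𝒱.Obj}

section chow

variable (C : TheoryData.{u, v, 0} 𝒱 ℚ)

/-- The projector `1 - a ∘ b` of `Y` defining the complement of the factor `h(X)`. -/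
noncomputable def rest (a : C.A (X.prod Y)) (b : C.A (Y.prod X)) : C.A (Y.prod Y) :=
  dg C Y - C.comp b a

/-- `Γ` maps the step `F^n CH^i(X)` for the family `r` to the step `F^n CH^i(Y)` for the family
`r'`. -/
def Keeps (r : ℕ → C.A (X.prod X)) (r' : ℕ → C.A (Y.prod Y)) (i n : ℕ) (Γ : C.A (X.prod Y)) :
    Prop :=
  ∀ x ∈ ckFil C r i n, C.act Γ x ∈ ckFil C r' i n

end chow

variable {C : TheoryData.{u, v, 0} 𝒱 ℚ} {K : Type w} [Field K] (H : WeilTheoryData.{u, v, w} C K)

/-- `Γ` is a homologically trivial correspondence of degree zero. -/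
def HomTriv (Γ : C.A (X.prod Y)) : Prop := C.Deg X.dim Γ ∧ H.cl Γ = 0

/-- The homologically trivial endomorphisms of the complement of the factor are nilpotent: if `c` is
a homologically trivial self-correspondence of degree zero of `Y` with `c ∘ a = 0` and `b ∘ c = 0`,
then `c ∘ ⋯ ∘ c = 0` for some number of factors. -/
def NilRest (a : C.A (X.prod Y)) (b : C.A (Y.prod X)) : Prop :=
  ∀ c : C.A (Y.prod Y), HomTriv H c → C.comp a c = 0 → C.comp c b = 0 →
    ∃ n, (C.comp c)^[n] (dg C Y) = 0

/-- `F^n CH^i(X)` is the same for all Chow-Kunneth decompositions of `X`. -/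
def StepC (X : 𝒱.Obj) (i n : ℕ) : Prop :=
  ∀ π π', IsCK H X π → IsCK H X π' → ckFil C π i n = ckFil C π' i n

/-- `F^n CH^i(Y, e) = (r_{2i-n} + ⋯ + r_0)_* CH^i(Y)` is the same for all Chow-Kunneth
decompositions `r` of the motive `(Y, e)`. -/
def StepOf (e : C.A (Y.prod Y)) (i n : ℕ) : Prop :=
  ∀ r r', CKOf H e r → CKOf H e r' → ckFil C r i n = ckFil C r' i n

/-- Homologically trivial morphisms `α : h(X) → h(Y)` into the complement (`b ∘ α = 0`) and
`β : h(Y) → h(X)` from the complement (`β ∘ a = 0`) preserve `F^n CH^i`, for all Chow-Kunneth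
decompositions `π` of `X` and `r` of the complement. -/
def MixedStep (a : C.A (X.prod Y)) (b : C.A (Y.prod X)) (i n : ℕ) : Prop :=
  ∀ π r, IsCK H X π → CKOf H (rest C a b) r →
    (∀ α : C.A (X.prod Y), HomTriv H α → C.comp α b = 0 → Keeps C π r i n α) ∧
    ∀ β : C.A (Y.prod X), HomTriv H β → C.comp a β = 0 → Keeps C r π i n β

end Pool.Agent.N103.MU
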