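import Pool.Agent.N103.SD.Witt

/-!
# Decompositions lifting a grading: existence, moving, cancellation
-/

set_option autoImplicit false
set_option linter.unusedSectionVars false

namespace Pool.Agent.N103.MU

open Polynomial Pool.Agent.N103.SD

variable {A : Type*} [Ring A] [Algebra ℚ A] {K V : Type*} [Field K] [AddCommGroup V] [Module K V]

/-- The situation: an action `ρ` on a graded space, and an idempotent `q` such that the elements of
the corner of `q` acting as zero are nilpotent. -/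
structure LSit (ρ : A →+* Module.End K V) (G : ℤ → Submodule K V) (d : ℕ) (q : A) : Prop where
  ext : ∀ f : Module.End K V, (∀ m, ∀ x ∈ G m, f x = 0) → f = 0
  low : ∀ m : ℤ, m < 0 → G m = ⊥
  top : ∀ m : ℤ, 2 * d < m → G m = ⊥
  pres : ∀ a m x, x ∈ G m → ρ a x ∈ G m
  qq : q * q = q
  nil : ∀ c, q * c = c → c * q = c → ρ c = 0 → IsNilpotent c

/-- A decomposition of the idempotent `q`, lifting the grading. -/
structure LDec (ρ : A →+* Module.End K V) (G : ℤ → Submodule K V) (d : ℕ) (q : A)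
    (e : ℕ → A) : Prop where
  out : ∀ n, 2 * d < n → e n = 0
  mul : ∀ m n, e m * e n = if m = n then e m else 0
  sum : ∑ n ∈ Finset.range (2 * d + 1), e n = q
  act : ∀ (n : ℕ) (m : ℤ) x, x ∈ G m → ρ (e n) x = if m = n then ρ q x else 0

variable {ρ : A →+* Module.End K V} {G : ℤ → Submodule K V} {d : ℕ} {q : A}

lemma LDec.left {e : ℕ → A} (h : LDec ρ G d q e) (n : ℕ) : q * e n = e n := by
  by_cases hn : 2 * d < n
  · rw [h.out n hn, mul_zero]
  · rw [← h.sum, Finset.sum_mul, Finset.sum_eq_single n]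
    · rw [h.mul, if_pos rfl]
    · intro m _ hm
      rw [h.mul, if_neg hm]
    · intro h'
      exact absurd (Finset.mem_range.2 (by omega)) h'

lemma LDec.right {e : ℕ → A} (h : LDec ρ G d q e) (n : ℕ) : e n * q = e n := by
  by_cases hn : 2 * d < n
  · rw [h.out n hn, zero_mul]
  · rw [← h.sum, Finset.mul_sum, Finset.sum_eq_single n]
    · rw [h.mul, if_pos rfl]
    · intro m _ hm
      rw [h.mul, if_neg (Ne.symm hm)]
    · intro h'
      exact absurd (Finset.mem_range.2 (by omega)) h'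

/-- Gluing. -/
lemma LDec.glue {q' : A} {e e' : ℕ → A} (h : LDec ρ G d q e) (h' : LDec ρ G d q' e')
    (h1 : q * q' = 0) (h2 : q' * q = 0) : LDec ρ G d (q + q') (fun n => e n + e' n) where
  out n hn := by rw [h.out n hn, h'.out n hn, add_zero]
  mul m n := by
    have e1 : e m * e' n = 0 := by
      rw [← h.right m, ← h'.left n, mul_assoc, ← mul_assoc q, h1, zero_mul, mul_zero]
    have e2 : e' m * e n = 0 := by
      rw [← h'.right m, ← h.left n, mul_assoc, ← mul_assoc q', h2, zero_mul, mul_zero]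
    rw [add_mul, mul_add, mul_add, e1, e2, add_zero, zero_add, h.mul, h'.mul]
    split_ifs
    · rfl
    · exact add_zero 0
  sum := by rw [Finset.sum_add_distrib, h.sum, h'.sum]
  act n m x hx := by
    rw [map_add, LinearMap.add_apply, h.act n m x hx, h'.act n m x hx, map_add]
    split_ifs
    · rfl
    · exact add_zero 0

/-- Splitting. -/
lemma LDec.split {p : ℕ → A} (h : LDec ρ G d 1 p) (hqq : q * q = q)
    (hc : ∀ n, Commute (p n) q) : LDec ρ G d q (fun n => q * p n) where
  out n hn := by rw [h.out n hn, mul_zero]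
  mul m n := by
    have e1 : q * p m * (q * p n) = q * (p m * p n) := by
      rw [← mul_assoc, mul_assoc q, (hc m).eq, ← mul_assoc, hqq, mul_assoc]
    rw [e1, h.mul]
    split_ifs
    · rfl
    · exact mul_zero q
  sum := by rw [← Finset.mul_sum, h.sum, mul_one]
  act n m x hx := by
    rw [map_mul, Module.End.mul_apply, h.act n m x hx, map_one]
    split_ifs
    · rfl
    · exact map_zero _

/-- Conjugation by a unit acting as the identity. -/
lemma LDec.conj {p : ℕ → A} (h : LDec ρ G d 1 p) {u v : A} (h1 : v * u = 1) (h2 : u * v = 1)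
    (hρ : ρ u = 1) : LDec ρ G d 1 (fun n => v * p n * u) where
  out n hn := by rw [h.out n hn, mul_zero, zero_mul]
  mul m n := by
    have e1 : v * p m * u * (v * p n * u) = v * (p m * p n) * u := by
      calc v * p m * u * (v * p n * u) = v * p m * (u * v) * p n * u := by
            simp only [mul_assoc]
        _ = _ := by rw [h2, mul_one, mul_assoc v]
    rw [e1, h.mul]
    split_ifs
    · rfl
    · rw [mul_zero, zero_mul]
  sum := by rw [← Finset.sum_mul, ← Finset.mul_sum, h.sum, mul_one, h1]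
  act n m x hx := by
    have hρv : ρ v = 1 := by
      have := congrArg ρ h1
      rwa [map_mul, hρ, mul_one, map_one] at this
    rw [map_mul, map_mul, hρ, hρv, one_mul, mul_one, h.act n m x hx]

/-- Elements which agree on the grading agree. -/
lemma LSit.ext' (h : LSit ρ G d q) {f g : Module.End K V} (hfg : ∀ m, ∀ x ∈ G m, f x = g x) :
    f = g := by
  rw [← sub_eq_zero]
  apply h.ext
  intro m x hx
  rw [LinearMap.sub_apply, hfg m x hx, sub_self]

/-- On a graded piece only one of the indices contributes. -/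
lemma LSit.sum_ite (h : LSit ρ G d q) {m : ℤ} {x : V} (hx : x ∈ G m)
    (f : ℕ → Module.End K V) :
    ∑ n ∈ Finset.range (2 * d + 1), (if m = n then f n x else 0) =
      if 0 ≤ m then f m.toNat x else 0 := by
  rcases lt_or_ge m 0 with hm | hm
  · rw [if_neg (by omega)]
    apply Finset.sum_eq_zero
    intro n _
    rw [if_neg (by omega)]
  · rw [if_pos hm]
    obtain ⟨j, rfl⟩ := Int.eq_ofNat_of_zero_le hm
    rcases lt_or_ge (2 * d) j with hj | hj
    · rw [h.top _ (by omega), Submodule.mem_bot] at hx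
      rw [hx, map_zero]
      apply Finset.sum_eq_zero
      intro n _
      rw [map_zero]
      split_ifs <;> rfl
    · rw [Finset.sum_eq_single j]
      · rw [if_pos rfl]; rfl
      · intro n _ hn
        rw [if_neg (by omega)]
      · intro h'
        exact absurd (Finset.mem_range.2 (by omega)) h'

/-- Polynomials in a derivation of the corner. -/
lemma LSit.act_aeval (h : LSit ρ G d q) {D : A}
    (hD : ∀ m x, x ∈ G m → ρ D x = (2 * (m - d) : ℤ) • ρ q x) (F : ℚ[X]) :
    ∀ (m : ℤ) (x : V), x ∈ G m →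
      ρ (q * aeval D F) x = ρ (F.eval (2 * ((m : ℚ) - d)) • q) x := by
  have hsm : ∀ (z : ℤ) (c : ℚ) (a : A) (x : V),
      ρ (c • a) (z • x) = ρ (((z : ℚ) * c) • a) x := by
    intro z c a x
    have e1 : ((z : ℚ) * c) • a = z • (c • a) := by
      rw [mul_smul, Int.cast_smul_eq_zsmul]
    rw [e1, map_zsmul ρ, map_zsmul (ρ (c • a))]
    rfl
  induction F using Polynomial.induction_on with
  | C a =>
    intro m x _
    rw [aeval_C, Algebra.algebraMap_eq_smul_one, mul_smul_comm, mul_one, eval_C]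
  | add F F' hF hF' =>
    intro m x hx
    rw [map_add, mul_add, map_add, LinearMap.add_apply, hF m x hx, hF' m x hx, eval_add, add_smul,
      map_add, LinearMap.add_apply]
  | monomial n a ih =>
    intro m x hx
    have e1 : (C a * X ^ (n + 1) : ℚ[X]) = C a * X ^ n * X := by rw [pow_succ, mul_assoc]
    rw [e1, map_mul (aeval D), aeval_X, ← mul_assoc, map_mul ρ, Module.End.mul_apply, hD m x hx,
      ih m _ ((G m).smul_of_tower_mem _ (h.pres q m x hx)), hsm]
    have e3 : eval (2 * ((m : ℚ) - d)) (C a * X ^ n * X) =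
        eval (2 * ((m : ℚ) - d)) (C a * X ^ n) * (2 * ((m : ℚ) - d)) := by
      rw [eval_mul, eval_X]
    rw [e3]
    have e2 : ρ (((((2 * (m - d) : ℤ)) : ℚ) * eval (2 * ((m : ℚ) - d)) (C a * X ^ n)) • q)
        (ρ q x) = ρ (((((2 * (m - d) : ℤ)) : ℚ) * eval (2 * ((m : ℚ) - d)) (C a * X ^ n)) • q)
        x := by
      rw [← Module.End.mul_apply, ← map_mul, Algebra.smul_mul_assoc, h.qq]
    rw [e2]
    congr 3
    push_cast
    ring

/-- **Existence of a decomposition of the corner.** -/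
theorem LSit.exists_ldec (h : LSit ρ G d q) (α : ℕ → A)
    (h1 : ∀ (n : ℕ) (m : ℤ) x, n ≤ 2 * d → x ∈ G m → ρ (α n) x = if m = n then ρ q x else 0) :
    ∃ e, LDec ρ G d q e := by
  have hqq : ∀ x, ρ q (ρ q x) = ρ q x := by
    intro x
    rw [← Module.End.mul_apply, ← map_mul, h.qq]
  set D : A := ∑ n ∈ Finset.range (2 * d + 1), (2 * ((n : ℤ) - d)) • (q * α n * q) with hD'
  have hqD : q * D = D := by
    rw [hD', Finset.mul_sum]
    refine Finset.sum_congr rfl fun n _ => ?_
    rw [mul_smul_comm, ← mul_assoc, ← mul_assoc, h.qq]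
  have hDq : D * q = D := by
    rw [hD', Finset.sum_mul]
    refine Finset.sum_congr rfl fun n _ => ?_
    rw [smul_mul_assoc, mul_assoc, h.qq]
  have hD : ∀ m x, x ∈ G m → ρ D x = (2 * (m - d) : ℤ) • ρ q x := by
    intro m x hx
    rw [hD', map_sum, LinearMap.sum_apply]
    have e1 : ∀ n ∈ Finset.range (2 * d + 1), ρ ((2 * ((n : ℤ) - d)) • (q * α n * q)) x =
        if m = n then (((2 * ((n : ℤ) - d)) • ρ q : Module.End K V)) x else 0 := by
      intro n hn
      rw [Finset.mem_range] at hn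
      rw [map_zsmul, LinearMap.smul_apply, map_mul, map_mul, Module.End.mul_apply,
        Module.End.mul_apply, h1 n m _ (by omega) (h.pres q m x hx)]
      split_ifs
      · rw [hqq, hqq]; rfl
      · rw [map_zero, smul_zero]
    rw [Finset.sum_congr rfl e1]
    have e2 := h.sum_ite hx (fun n => (((2 * ((n : ℤ) - d)) • ρ q : Module.End K V)))
    rw [e2]
    split_ifs with hm
    · obtain ⟨j, rfl⟩ := Int.eq_ofNat_of_zero_le hm
      rfl
    · rw [h.low m (by omega), Submodule.mem_bot] at hx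
      rw [hx, map_zero, smul_zero]
  have hcomm : Commute D q := by rw [Commute, SemiconjBy, hqD, hDq]
  have hcF : ∀ F : ℚ[X], Commute q (aeval D F) := fun F => (commute_aeval F hcomm).symm
  have hnode : ∀ n : ℕ, (2 * (((n : ℤ) : ℚ) - d) : ℚ) = nd d n := fun n => by
    unfold nd; push_cast; rfl
  have hP0 : ρ (q * aeval D (PP d)) = 0 := by
    apply h.ext
    intro m x hx
    rcases lt_or_ge m 0 with hm | hm
    · rw [h.low m hm, Submodule.mem_bot] at hx
      rw [hx, map_zero]
    · rcases lt_or_ge (2 * (d : ℤ)) m with hm' | hm'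
      · rw [h.top m hm', Submodule.mem_bot] at hx
        rw [hx, map_zero]
      · obtain ⟨n, rfl⟩ := Int.eq_ofNat_of_zero_le hm
        rw [h.act_aeval hD (PP d) _ x hx, hnode, PP_eval (by omega), zero_smul, map_zero]
        rfl
  obtain ⟨k, hk⟩ := h.nil (q * aeval D (PP d)) (by rw [← mul_assoc, h.qq])
    (by rw [mul_assoc, ← (hcF (PP d)).eq, ← mul_assoc, h.qq]) hP0
  have hk1 : q * aeval D (PP d ^ (k + 1)) = 0 := by
    have e1 : ∀ j : ℕ, (q * aeval D (PP d)) ^ (j + 1) = q * aeval D (PP d) ^ (j + 1) := by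
      intro j
      rw [(hcF (PP d)).mul_pow]
      congr 1
      have e2 : IsIdempotentElem q := h.qq
      exact e2.pow_succ_eq j
    rw [map_pow, ← e1, pow_succ, hk, zero_mul]
  have hdvd : ∀ F : ℚ[X], PP d ^ (k + 1) ∣ F → q * aeval D F = 0 := by
    rintro F ⟨R, rfl⟩
    rw [map_mul, ← mul_assoc, hk1, zero_mul]
  have hmul : ∀ F F' : ℚ[X], (q * aeval D F) * (q * aeval D F') = q * aeval D (F * F') := by
    intro F F'
    rw [map_mul, ← mul_assoc, mul_assoc q _ q, ← (hcF F).eq, ← mul_assoc, h.qq, mul_assoc]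
  refine ⟨fun n => if n ≤ 2 * d then q * aeval D (EE d (k + 1) n) else 0, ?_, ?_, ?_, ?_⟩
  · intro n hn
    exact if_neg (by omega)
  · intro m n
    by_cases hm : m ≤ 2 * d
    · by_cases hn : n ≤ 2 * d
      · rw [if_pos hm, if_pos hn, hmul]
        split_ifs with hmn
        · subst hmn
          have e1 := hdvd _ (EE_idem d k hm)
          rw [map_sub, mul_sub] at e1
          exact (sub_eq_zero.1 e1).symm
        · exact hdvd _ (EE_orth d k hm hn hmn)
      · rw [if_neg hn, mul_zero, if_neg (by omega)]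
    · rw [if_neg hm, zero_mul]
      split_ifs <;> rfl
  · have e1 : ∀ n ∈ Finset.range (2 * d + 1), (if n ≤ 2 * d then q * aeval D (EE d (k + 1) n)
        else 0) = q * aeval D (EE d (k + 1) n) := by
      intro n hn
      rw [Finset.mem_range] at hn
      exact if_pos (by omega)
    rw [Finset.sum_congr rfl e1, ← Finset.mul_sum, ← map_sum]
    have e2 := hdvd _ (EE_sum d k)
    rw [map_sub, map_one, mul_sub, mul_one] at e2
    exact (sub_eq_zero.1 e2).symm
  · intro n m x hx
    rcases lt_or_ge m 0 with hm | hm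
    · rw [h.low m hm, Submodule.mem_bot] at hx
      rw [hx, map_zero, map_zero]
      split_ifs <;> rfl
    · rcases lt_or_ge (2 * (d : ℤ)) m with hm' | hm'
      · rw [h.top m hm', Submodule.mem_bot] at hx
        rw [hx, map_zero, map_zero]
        split_ifs <;> rfl
      · obtain ⟨j, rfl⟩ := Int.eq_ofNat_of_zero_le hm
        by_cases hn : n ≤ 2 * d
        · rw [if_pos hn, h.act_aeval hD _ _ x hx, hnode, EE_eval hn (by omega)]
          by_cases hjn : j = n
          · rw [if_pos hjn, if_pos (by rw [hjn]), one_smul]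
          · rw [if_neg hjn, if_neg (by exact_mod_cast hjn), zero_smul, map_zero]
            rfl
        · rw [if_neg hn, map_zero, if_neg (by omega)]
          rfl

/-- Two embeddings of a corner with retractions: there is a unit moving one into the other, of the
form `1 + (something through the corner)`. -/
lemma exists_unit {q Ψ r b c : A} (hqq : q * q = q) (hrΨ : r * Ψ = q)
    (hΨq : Ψ * q = Ψ) (hqr : q * r = r) (hbq : b * q = b) (hqb : q * b = b) (hcq : c * q = c)
    (hqc : q * c = c) (hba : b * (q + r * q) = q) (hab : (q + r * q) * b = q)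
    (hca : c * (q + q * Ψ) = q) (hac : (q + q * Ψ) * c = q) :
    (1 - (q + Ψ) * c * (q + r)) * (1 - (q + Ψ) * b * (q + r)) = 1 ∧
    (1 - (q + Ψ) * b * (q + r)) * (1 - (q + Ψ) * c * (q + r)) = 1 ∧
    (1 - (q + Ψ) * b * (q + r)) * q = -Ψ ∧ q * (1 - (q + Ψ) * c * (q + r)) = -r := by
  have huu : (q + r) * (q + Ψ) = (q + r * q) + (q + q * Ψ) := by
    rw [add_mul, mul_add, mul_add, hqq, hrΨ]
    abel
  refine ⟨?_, ?_, ?_, ?_⟩
  · have e1 : c * ((q + r * q) + (q + q * Ψ)) * b = c + b := by
      rw [mul_add, add_mul, mul_assoc c (q + r * q), hab, hcq, hca, hqb]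
    calc (1 - (q + Ψ) * c * (q + r)) * (1 - (q + Ψ) * b * (q + r))
        = 1 - (q + Ψ) * (c + b - c * ((q + r) * (q + Ψ)) * b) * (q + r) := by
          noncomm_ring
      _ = 1 := by rw [huu, e1, sub_self, mul_zero, zero_mul, sub_zero]
  · have e1 : b * ((q + r * q) + (q + q * Ψ)) * c = c + b := by
      rw [mul_add, add_mul, hba, mul_assoc b (q + q * Ψ), hac, hqc, hbq]
    calc (1 - (q + Ψ) * b * (q + r)) * (1 - (q + Ψ) * c * (q + r))
        = 1 - (q + Ψ) * (c + b - b * ((q + r) * (q + Ψ)) * c) * (q + r) := by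
          noncomm_ring
      _ = 1 := by rw [huu, e1, sub_self, mul_zero, zero_mul, sub_zero]
  · calc (1 - (q + Ψ) * b * (q + r)) * q = q - (q + Ψ) * (b * (q * q + r * q)) := by
          noncomm_ring
      _ = q - (q * q + Ψ * q) := by rw [hqq, hba, add_mul, hqq]
      _ = -Ψ := by rw [hqq, hΨq]; abel
  · calc q * (1 - (q + Ψ) * c * (q + r)) = q - ((q * q + q * Ψ) * c) * (q + r) := by
          noncomm_ring
      _ = q - (q * q + q * r) := by rw [hqq, hac, mul_add, hqq]
      _ = -r := by rw [hqq, hqr]; abel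

/-- The inverse of `q + z q` in the corner, for `z` close to `q`. -/
lemma LSit.exists_inv (h : LSit ρ G d q) {z : A} (hqz : q * z = z) (hzq : z * q = z)
    (hρz : ρ z = ρ q) : ∃ b, b * q = b ∧ q * b = b ∧ b * (q + z) = q ∧ (q + z) * b = q := by
  set y : A := z - q with hy
  have hqy : q * y = y := by rw [hy, mul_sub, hqz, h.qq]
  have hyq : y * q = y := by rw [hy, sub_mul, hzq, h.qq]
  have hρy : ρ y = 0 := by rw [hy, map_sub, hρz, sub_self]
  obtain ⟨U, hU⟩ : IsUnit ((2 : A) + y) := by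
    have h2 : IsUnit (2 : A) := by
      have : (2 : A) = algebraMap ℚ A 2 := by rw [map_ofNat]
      rw [this]
      exact (isUnit_iff_ne_zero.2 (by norm_num)).map _
    exact (h.nil y hqy hyq hρy).isUnit_add_left_of_commute h2 (by
      rw [Commute, SemiconjBy, mul_two, two_mul])
  have ha : q + z = q * (U : A) := by
    rw [hU, mul_add, hqy, hy, mul_two]
    abel
  have hqU : Commute q (U : A) := by
    rw [hU]
    refine Commute.add_right (by rw [Commute, SemiconjBy, mul_two, two_mul]) ?_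
    rw [Commute, SemiconjBy, hqy, hyq]
  have hqU' : Commute q (↑U⁻¹ : A) := hqU.units_inv_right
  refine ⟨q * (↑U⁻¹ : A), ?_, ?_, ?_, ?_⟩
  · rw [mul_assoc, ← hqU'.eq, ← mul_assoc, h.qq]
  · rw [← mul_assoc, h.qq]
  · rw [ha, mul_assoc, ← mul_assoc _ q, ← hqU'.eq, mul_assoc q, Units.inv_mul, mul_one, h.qq]
  · rw [ha, mul_assoc, ← mul_assoc _ q, ← hqU.eq, mul_assoc q, Units.mul_inv, mul_one, h.qq]

/-- **Moving a decomposition.** Every decomposition is conjugate, by a unit acting as the identity,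
to one commuting with `q`; the unit is of the form `1 + s q s' + …`, that is `u - 1` is a sum of
elements `s * q * s'`. -/
theorem LSit.exists_move (h : LSit ρ G d q) {p : ℕ → A} (hp : LDec ρ G d 1 p) :
    ∃ u v : A, v * u = 1 ∧ u * v = 1 ∧ ρ u = 1 ∧ (∀ n, Commute (v * p n * u) q) ∧
      (∃ s s' t t', u - 1 = s * q * s' + t * q * t') ∧
      ∃ s s' t t', v - 1 = s * q * s' + t * q * t' := by
  have hρ1 : ρ 1 = 1 := map_one ρ
  obtain ⟨e, he⟩ := h.exists_ldec (fun n => q * p n * q) (by
    intro n m x _ hx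
    rw [map_mul, map_mul, Module.End.mul_apply, Module.End.mul_apply,
      hp.act n m _ (h.pres q m x hx)]
    split_ifs
    · rw [hρ1, Module.End.one_apply, ← Module.End.mul_apply, ← map_mul, h.qq]
    · rw [map_zero])
  set Φ : A := ∑ n ∈ Finset.range (2 * d + 1), p n * e n with hΦ
  set Φ' : A := ∑ n ∈ Finset.range (2 * d + 1), e n * p n with hΦ'
  have hpΦ : ∀ n, p n * Φ = p n * e n := by
    intro n
    by_cases hn : n ≤ 2 * d
    · rw [hΦ, Finset.mul_sum, Finset.sum_eq_single n]
      · rw [← mul_assoc, hp.mul, if_pos rfl]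
      · intro m _ hm
        rw [← mul_assoc, hp.mul, if_neg (Ne.symm hm), zero_mul]
      · intro h'
        exact absurd (Finset.mem_range.2 (by omega)) h'
    · rw [hp.out n (by omega), zero_mul, zero_mul]
  have hΦe : ∀ n, Φ * e n = p n * e n := by
    intro n
    by_cases hn : n ≤ 2 * d
    · rw [hΦ, Finset.sum_mul, Finset.sum_eq_single n]
      · rw [mul_assoc, he.mul, if_pos rfl]
      · intro m _ hm
        rw [mul_assoc, he.mul, if_neg hm, mul_zero]
      · intro h'
        exact absurd (Finset.mem_range.2 (by omega)) h'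
    · rw [he.out n (by omega), mul_zero, mul_zero]
  have hΦp : ∀ n, Φ' * p n = e n * p n := by
    intro n
    by_cases hn : n ≤ 2 * d
    · rw [hΦ', Finset.sum_mul, Finset.sum_eq_single n]
      · rw [mul_assoc, hp.mul, if_pos rfl]
      · intro m _ hm
        rw [mul_assoc, hp.mul, if_neg hm, mul_zero]
      · intro h'
        exact absurd (Finset.mem_range.2 (by omega)) h'
    · rw [hp.out n (by omega), mul_zero, mul_zero]
  have heΦ : ∀ n, e n * Φ' = e n * p n := by
    intro n
    by_cases hn : n ≤ 2 * d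
    · rw [hΦ', Finset.mul_sum, Finset.sum_eq_single n]
      · rw [← mul_assoc, he.mul, if_pos rfl]
      · intro m _ hm
        rw [← mul_assoc, he.mul, if_neg (Ne.symm hm), zero_mul]
      · intro h'
        exact absurd (Finset.mem_range.2 (by omega)) h'
    · rw [he.out n (by omega), zero_mul, zero_mul]
  have hΦq : Φ * q = Φ := by
    rw [hΦ, Finset.sum_mul]
    exact Finset.sum_congr rfl fun n _ => by rw [mul_assoc, he.right]
  have hqΦ : q * Φ' = Φ' := by
    rw [hΦ', Finset.mul_sum]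
    exact Finset.sum_congr rfl fun n _ => by rw [← mul_assoc, he.left]
  have hactΦ : ρ Φ = ρ q := by
    apply h.ext'
    intro m x hx
    rw [hΦ, map_sum, LinearMap.sum_apply]
    have e1 : ∀ n ∈ Finset.range (2 * d + 1), ρ (p n * e n) x =
        if m = n then ρ q x else 0 := by
      intro n _
      rw [map_mul, Module.End.mul_apply, he.act n m x hx]
      split_ifs with hmn
      · rw [hp.act n m _ (h.pres q m x hx), if_pos hmn, hρ1]; rfl
      · rw [map_zero]
    rw [Finset.sum_congr rfl e1, h.sum_ite hx (fun _ => ρ q)]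
    split_ifs with hm
    · rfl
    · rw [h.low m (by omega), Submodule.mem_bot] at hx
      rw [hx, map_zero]
  have hactΦ' : ρ Φ' = ρ q := by
    apply h.ext'
    intro m x hx
    rw [hΦ', map_sum, LinearMap.sum_apply]
    have e1 : ∀ n ∈ Finset.range (2 * d + 1), ρ (e n * p n) x =
        if m = n then ρ q x else 0 := by
      intro n _
      rw [map_mul, Module.End.mul_apply, hp.act n m x hx]
      split_ifs with hmn
      · rw [he.act n m _ (h.pres 1 m x hx), if_pos hmn, hρ1]; rfl
      · rw [map_zero]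
    rw [Finset.sum_congr rfl e1, h.sum_ite hx (fun _ => ρ q)]
    split_ifs with hm
    · rfl
    · rw [h.low m (by omega), Submodule.mem_bot] at hx
      rw [hx, map_zero]
  have hρqq : ρ q * ρ q = ρ q := by rw [← map_mul, h.qq]
  set x : A := Φ' * Φ - q with hx
  have hqx : q * x = x := by rw [hx, mul_sub, ← mul_assoc, hqΦ, h.qq]
  have hxq : x * q = x := by rw [hx, sub_mul, mul_assoc, hΦq, h.qq]
  have hρx : ρ x = 0 := by rw [hx, map_sub, map_mul, hactΦ, hactΦ', hρqq, sub_self]
  have hxe : ∀ n, Commute x (e n) := by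
    intro n
    rw [Commute, SemiconjBy, hx, sub_mul, mul_sub, he.left, he.right, mul_assoc, hΦe,
      ← mul_assoc, hΦp, ← mul_assoc, heΦ, mul_assoc (e n) (p n) Φ, hpΦ, mul_assoc]
  obtain ⟨W, hW⟩ : IsUnit (1 + x) := (h.nil x hqx hxq hρx).isUnit_one_add
  have hWe : ∀ y : A, Commute x y → Commute (↑W⁻¹ : A) y := by
    intro y hy
    refine Commute.units_inv_left ?_
    rw [hW]
    exact (Commute.one_left y).add_left hy
  set w : A := (↑W⁻¹ : A) with hw
  have hw1 : (1 + x) * w = 1 := by rw [← hW, hw, Units.mul_inv]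
  have hρw : ρ w = 1 := by
    have e1 := congrArg ρ hw1
    rwa [map_mul, map_add, hρx, hρ1, add_zero, one_mul] at e1
  have hwq : Commute w q := hWe q (by rw [Commute, SemiconjBy, hqx, hxq])
  set Ψ : A := Φ * w with hΨdef
  have hΨΨ : Φ' * Ψ = q := by
    calc Φ' * Ψ = (x + q) * w := by rw [hΨdef, hx, sub_add_cancel, mul_assoc]
      _ = q * ((1 + x) * w) := by
          have e1 : x + q = q * (1 + x) := by rw [mul_add, mul_one, hqx, add_comm]
          rw [e1, mul_assoc]
      _ = q := by rw [hw1, mul_one]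
  have hΨq : Ψ * q = Ψ := by rw [hΨdef, mul_assoc, hwq.eq, ← mul_assoc, hΦq]
  have hpΨ : ∀ n, p n * Ψ = Ψ * e n := by
    intro n
    rw [hΨdef, ← mul_assoc, hpΦ, mul_assoc Φ w, (hWe _ (hxe n)).eq, ← mul_assoc, hΦe]
  have hactΨ : ρ Ψ = ρ q := by rw [hΨdef, map_mul, hactΦ, hρw, mul_one]
  obtain ⟨b, b1, b2, b3, b4⟩ := h.exists_inv (z := Φ' * q) (by rw [← mul_assoc, hqΦ])
    (by rw [mul_assoc, h.qq]) (by rw [map_mul, hactΦ', hρqq])
  obtain ⟨c, c1, c2, c3, c4⟩ := h.exists_inv (z := q * Ψ) (by rw [← mul_assoc, h.qq])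
    (by rw [mul_assoc, hΨq]) (by rw [map_mul, hactΨ, hρqq])
  obtain ⟨g1, g2, g3, g4⟩ := exists_unit (q := q) (Ψ := Ψ) (r := Φ') (b := b) (c := c) h.qq hΨΨ
    hΨq hqΦ b1 b2 c1 c2 b3 b4 c3 c4
  have hρσ : ρ (1 - (q + Ψ) * b * (q + Φ')) = 1 - 2 * ρ q := by
    have e1 : ρ b * (2 * ρ q) = ρ q := by
      have e3 := congrArg ρ b3
      rwa [map_mul, map_add, map_mul, hactΦ', hρqq, ← two_mul] at e3
    rw [map_sub, hρ1, map_mul, map_mul ρ (q + Ψ), map_add, map_add, hactΨ, hactΦ', ← two_mul,
      mul_assoc, e1, mul_assoc, hρqq]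
  set σ : A := 1 - (q + Ψ) * b * (q + Φ') with hσ
  set τ : A := 1 - (q + Ψ) * c * (q + Φ') with hτ
  have hr : (1 - 2 * q) * (1 - 2 * q) = 1 := by
    calc (1 - 2 * q) * (1 - 2 * q) = 1 + 4 * (q * q - q) := by noncomm_ring
      _ = 1 := by rw [h.qq, sub_self, mul_zero, add_zero]
  have hqr : q * (1 - 2 * q) = -q := by
    calc q * (1 - 2 * q) = q - 2 * (q * q) := by noncomm_ring
      _ = -q := by rw [h.qq, two_mul]; abel
  have hrq : (1 - 2 * q) * q = -q := by
    calc (1 - 2 * q) * q = q - 2 * (q * q) := by noncomm_ring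
      _ = -q := by rw [h.qq, two_mul]; abel
  have huv : σ * (1 - 2 * q) * ((1 - 2 * q) * τ) = 1 := by
    rw [mul_assoc, ← mul_assoc (1 - 2 * q), hr, one_mul, g2]
  have hvu : (1 - 2 * q) * τ * (σ * (1 - 2 * q)) = 1 := by
    rw [mul_assoc, ← mul_assoc τ, g1, one_mul, hr]
  refine ⟨σ * (1 - 2 * q), (1 - 2 * q) * τ, hvu, huv, ?_, ?_, ?_, ?_⟩
  · rw [map_mul, hρσ, map_sub, hρ1, map_mul, map_ofNat]
    calc (1 - 2 * ρ q) * (1 - 2 * ρ q) = 1 + 4 * (ρ q * ρ q - ρ q) := by noncomm_ring
      _ = 1 := by rw [hρqq, sub_self, mul_zero, add_zero]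
  · intro n
    have hf1 : σ * (1 - 2 * q) * q = Ψ := by rw [mul_assoc, hrq, mul_neg, g3, neg_neg]
    have hf2 : q * ((1 - 2 * q) * τ) = Φ' := by rw [← mul_assoc, hqr, neg_mul, g4, neg_neg]
    set u : A := σ * (1 - 2 * q) with hu
    set v : A := (1 - 2 * q) * τ with hv
    rw [Commute, SemiconjBy]
    calc v * p n * u * q = v * (p n * (u * q)) := by simp only [mul_assoc]
      _ = v * (Ψ * e n) := by rw [hf1, hpΨ]
      _ = v * (u * q) * e n := by rw [← mul_assoc, hf1]
      _ = e n := by rw [← mul_assoc v, hvu, one_mul, he.left]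
      _ = e n * (q * v) * u := by rw [mul_assoc, mul_assoc q, hvu, mul_one, he.right]
      _ = Φ' * p n * u := by rw [hf2, heΦ, hΦp]
      _ = q * (v * p n * u) := by rw [← hf2]; simp only [mul_assoc]
  · refine ⟨-2, 1, -(q + Ψ), b * (q + Φ') * (1 - 2 * q), ?_⟩
    rw [hσ]
    have e1 : (q + Ψ) * q = q + Ψ := by rw [add_mul, h.qq, hΨq]
    calc (1 - (q + Ψ) * b * (q + Φ')) * (1 - 2 * q) - 1
        = -2 * q * 1 + -(q + Ψ) * (b * (q + Φ') * (1 - 2 * q)) := by noncomm_ring
      _ = _ := by rw [neg_mul (q + Ψ) q, e1]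
  · refine ⟨-2, 1, -((1 - 2 * q) * (q + Ψ)), c * (q + Φ'), ?_⟩
    rw [hτ]
    have e1 : (q + Ψ) * q = q + Ψ := by rw [add_mul, h.qq, hΨq]
    calc (1 - 2 * q) * (1 - (q + Ψ) * c * (q + Φ')) - 1
        = -2 * q * 1 + -((1 - 2 * q) * (q + Ψ)) * (c * (q + Φ')) := by noncomm_ring
      _ = _ := by rw [neg_mul ((1 - 2 * q) * (q + Ψ)) q, mul_assoc (1 - 2 * q), e1]

/-- **Cancellation.** -/
theorem LSit.iff (h : LSit ρ G d q) :
    (∃ p, LDec ρ G d 1 p) ↔ (∃ r, LDec ρ G d (1 - q) r) ∧ ∃ e, LDec ρ G d q e := by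
  constructor
  · rintro ⟨p, hp⟩
    obtain ⟨u, v, h1, h2, h3, h4, _, _⟩ := h.exists_move hp
    have hm := hp.conj h1 h2 h3
    refine ⟨⟨_, hm.split (q := 1 - q) ?_ fun n =>
      (Commute.one_right _).sub_right (h4 n)⟩, ⟨_, hm.split h.qq h4⟩⟩
    rw [sub_mul, one_mul, mul_sub, mul_one, h.qq, sub_self, sub_zero]
  · rintro ⟨⟨r, hr⟩, ⟨e, he⟩⟩
    have h5 := hr.glue he (by rw [sub_mul, one_mul, h.qq, sub_self])
      (by rw [mul_sub, mul_one, h.qq, sub_self])
    rw [sub_add_cancel] at h5
    exact ⟨_, h5⟩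

end Pool.Agent.N103.MU
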